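import Mathlib
import Pool.Agent.Helper40.LinWidth.Defs

set_option autoImplicit false

/-!
One-dimensional kernels on the circle `ℝ / 2πℤ`.
-/

namespace Pool.Agent.Helper65.LW

open MeasureTheory AddCircle Polynomial
open Pool.Agent.Helper40.LinWidth
open scoped Real ComplexConjugate

/-- the circle -/
abbrev T1 : Type := AddCircle (2 * π)

/-- its normalised measure -/
noncomputable abbrev μ1 : Measure T1 := AddCircle.haarAddCircle

lemma integral_fourier (n : ℤ) : ∫ t : T1, fourier n t ∂μ1 = if n = 0 then 1 else 0 := by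
  split_ifs with h
  · subst h
    simp
  · exact integral_eq_zero_of_add_right_eq_neg (μ := haarAddCircle)
      (fourier_add_half_inv_index h Real.two_pi_pos)

lemma integrable_of_continuous {E : Type*} [NormedAddCommGroup E] {f : T1 → E}
    (hf : Continuous f) : Integrable f μ1 :=
  hf.integrable_of_hasCompactSupport (HasCompactSupport.of_compactSpace _)

/-- `cos (n t)` on the circle -/
noncomputable def cs (n : ℤ) (t : T1) : ℝ := (fourier n t).re

/-- `sin (n t)` on the circle -/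
noncomputable def sn (n : ℤ) (t : T1) : ℝ := (fourier n t).im

lemma continuous_cs (n : ℤ) : Continuous (cs n) := Complex.continuous_re.comp (fourier n).continuous

lemma continuous_sn (n : ℤ) : Continuous (sn n) := Complex.continuous_im.comp (fourier n).continuous

lemma cs_zero (t : T1) : cs 0 t = 1 := by
  simp [cs]

lemma cs_neg (n : ℤ) (t : T1) : cs (-n) t = cs n t := by
  rw [cs, cs, fourier_neg, Complex.conj_re]

lemma cs_natAbs (n : ℤ) (t : T1) : cs (n.natAbs : ℤ) t = cs n t := by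
  rcases Int.natAbs_eq n with h | h
  · rw [← h]
  · conv_rhs => rw [h]
    rw [cs_neg]

lemma integral_cs (n : ℤ) : ∫ t : T1, cs n t ∂μ1 = if n = 0 then 1 else 0 := by
  have h := integral_fourier n
  have h1 : ∫ t : T1, cs n t ∂μ1 = (∫ t : T1, fourier n t ∂μ1).re := by
    have := Complex.reCLM.integral_comp_comm (μ := μ1) (φ := fun t : T1 => fourier n t)
      (integrable_of_continuous (fourier n).continuous)
    exact this
  rw [h1, h]
  split_ifs <;> simp

lemma fourier_sub_apply (n : ℤ) (x y : T1) :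
    fourier n (x - y) = fourier n x * conj (fourier n y) := by
  rw [fourier_apply, fourier_apply, fourier_apply, zsmul_sub, sub_eq_add_neg, toCircle_add,
    toCircle_neg, Circle.coe_mul, Circle.coe_inv_eq_conj]

lemma cs_sub (n : ℤ) (x y : T1) : cs n (x - y) = cs n x * cs n y + sn n x * sn n y := by
  rw [cs, fourier_sub_apply, Complex.mul_re, Complex.conj_re, Complex.conj_im]
  simp only [cs, sn]
  ring

/-- the value of a polynomial at `e^{it}` -/
noncomputable def ev (p : ℝ[X]) (t : T1) : ℂ := aeval (fourier 1 t : ℂ) p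

lemma continuous_ev (p : ℝ[X]) : Continuous (ev p) := by
  unfold ev
  exact (Polynomial.continuous_aeval p).comp (fourier 1).continuous

lemma fourier_one_pow (a : ℕ) (t : T1) : (fourier 1 t : ℂ) ^ a = fourier (a : ℤ) t := by
  rw [fourier_apply, fourier_apply, one_zsmul, natCast_zsmul, ← Circle.coe_pow]
  congr 1
  induction a with
  | zero => rw [pow_zero, zero_nsmul, toCircle_zero]
  | succ a ih => rw [pow_succ, ih, succ_nsmul, toCircle_add]

lemma ev_eq_sum (p : ℝ[X]) {N : ℕ} (hN : p.natDegree < N) (t : T1) :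
    ev p t = ∑ a ∈ Finset.range N, (p.coeff a : ℂ) * fourier (a : ℤ) t := by
  rw [ev, aeval_eq_sum_range' hN]
  apply Finset.sum_congr rfl
  intro a _
  rw [fourier_one_pow, Complex.real_smul]

lemma norm_sq_ev (p : ℝ[X]) {N : ℕ} (hN : p.natDegree < N) (t : T1) :
    ‖ev p t‖ ^ 2 = ∑ a ∈ Finset.range N, ∑ b ∈ Finset.range N,
      p.coeff a * p.coeff b * cs ((a : ℤ) - b) t := by
  rw [← Complex.normSq_eq_norm_sq]
  have h1 : (Complex.normSq (ev p t) : ℂ) = ev p t * conj (ev p t) := (Complex.mul_conj _).symm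
  have h2 : Complex.normSq (ev p t) = (ev p t * conj (ev p t)).re := by
    rw [← h1, Complex.ofReal_re]
  rw [h2, ev_eq_sum p hN, map_sum, Finset.sum_mul_sum, Complex.re_sum]
  apply Finset.sum_congr rfl
  intro a _
  rw [Complex.re_sum]
  apply Finset.sum_congr rfl
  intro b _
  rw [map_mul, Complex.conj_ofReal, ← fourier_neg, cs]
  have h3 : (p.coeff a : ℂ) * fourier (a : ℤ) t * ((p.coeff b : ℂ) * fourier (-(b : ℤ)) t) =
      ((p.coeff a * p.coeff b : ℝ) : ℂ) * fourier ((a : ℤ) - b) t := by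
    rw [sub_eq_add_neg, fourier_add]
    push_cast
    ring
  rw [h3, Complex.re_ofReal_mul]

lemma integral_norm_sq_ev (p : ℝ[X]) {N : ℕ} (hN : p.natDegree < N) :
    ∫ t, ‖ev p t‖ ^ 2 ∂μ1 = ∑ a ∈ Finset.range N, p.coeff a ^ 2 := by
  simp_rw [norm_sq_ev p hN]
  rw [integral_finsetSum]
  · apply Finset.sum_congr rfl
    intro a ha
    rw [integral_finsetSum]
    · simp_rw [integral_const_mul, integral_cs]
      rw [Finset.sum_eq_single a]
      · simp [sq]
      · intro b _ hb
        rw [if_neg, mul_zero]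
        intro h
        apply hb
        omega
      · intro h
        exact absurd ha h
    · intro b _
      exact integrable_of_continuous (continuous_const.mul (continuous_cs _))
  · intro a _
    exact integrable_of_continuous (continuous_finsetSum _ fun b _ =>
      continuous_const.mul (continuous_cs _))

/-- `(1 + X + ⋯ + X ^ (M - 1)) ^ (l + 1)` -/
noncomputable def PM (l M : ℕ) : ℝ[X] := (∑ i ∈ Finset.range M, X ^ i) ^ (l + 1)

lemma natDegree_geom (M : ℕ) (hM : 1 ≤ M) : (∑ i ∈ Finset.range M, (X : ℝ[X]) ^ i).natDegree < M := by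
  have : (∑ i ∈ Finset.range M, (X : ℝ[X]) ^ i).natDegree ≤ M - 1 := by
    apply natDegree_sum_le_of_forall_le
    intro i hi
    rw [Finset.mem_range] at hi
    rw [natDegree_X_pow]
    omega
  omega

lemma natDegree_PM (l M : ℕ) (hM : 1 ≤ M) : (PM l M).natDegree < (l + 1) * M := by
  have h1 := natDegree_geom M hM
  have h2 : (PM l M).natDegree ≤ (l + 1) * (M - 1) := by
    refine natDegree_pow_le.trans (Nat.mul_le_mul_left _ (by omega))
  have h3 : (l + 1) * (M - 1) < (l + 1) * M := Nat.mul_lt_mul_of_pos_left (by omega) (by omega)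
  omega

/-- sum of the squares of the coefficients -/
noncomputable def SM (l M : ℕ) : ℝ := ∑ a ∈ Finset.range ((l + 1) * M), (PM l M).coeff a ^ 2

lemma SM_ge (l M : ℕ) (hM : 1 ≤ M) : (M : ℝ) ^ (2 * l + 1) ≤ (l + 1) * SM l M := by
  have h1 : ∑ a ∈ Finset.range ((l + 1) * M), (PM l M).coeff a = (M : ℝ) ^ (l + 1) := by
    have h2 : (PM l M).eval 1 = (M : ℝ) ^ (l + 1) := by
      rw [PM, eval_pow, eval_finsetSum]
      simp
    rw [← h2, eval_eq_sum_range' (natDegree_PM l M hM)]
    simp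
  have h3 := sq_sum_le_card_mul_sum_sq (s := Finset.range ((l + 1) * M))
    (f := fun a => (PM l M).coeff a)
  rw [h1, Finset.card_range] at h3
  have hM' : (0 : ℝ) < M := by exact_mod_cast hM
  have h4 : ((M : ℝ) ^ (l + 1)) ^ 2 = M * (M : ℝ) ^ (2 * l + 1) := by ring
  rw [h4] at h3
  push_cast at h3
  have h5 : (M : ℝ) * (M : ℝ) ^ (2 * l + 1) ≤ M * ((l + 1) * SM l M) := by
    refine h3.trans (le_of_eq ?_)
    rw [SM]
    ring
  exact le_of_mul_le_mul_left h5 hM'

lemma SM_pos (l M : ℕ) (hM : 1 ≤ M) : 0 < SM l M := by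
  have h := SM_ge l M hM
  have hM' : (0 : ℝ) < M := by exact_mod_cast hM
  have h1 : 0 < (M : ℝ) ^ (2 * l + 1) := by positivity
  by_contra hcon
  push Not at hcon
  have h2 : ((l : ℝ) + 1) * SM l M ≤ 0 := mul_nonpos_of_nonneg_of_nonpos (by positivity) hcon
  linarith

/-- the generalised Jackson kernel -/
noncomputable def KM (l M : ℕ) (t : T1) : ℝ := ‖ev (PM l M) t‖ ^ 2 / SM l M

lemma continuous_KM (l M : ℕ) : Continuous (KM l M) :=
  ((continuous_ev _).norm.pow 2).div_const _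

lemma KM_nonneg (l M : ℕ) (hM : 1 ≤ M) (t : T1) : 0 ≤ KM l M t :=
  div_nonneg (by positivity) (SM_pos l M hM).le

lemma integral_KM (l M : ℕ) (hM : 1 ≤ M) : ∫ t, KM l M t ∂μ1 = 1 := by
  simp_rw [KM]
  rw [integral_div, integral_norm_sq_ev _ (natDegree_PM l M hM)]
  exact div_self (SM_pos l M hM).ne'

lemma KM_one (l : ℕ) (t : T1) : KM l 1 t = 1 := by
  have h1 : PM l 1 = 1 := by simp [PM]
  have h2 : SM l 1 = 1 := by
    rw [SM, h1, mul_one]
    rw [Finset.sum_eq_single 0]
    · simp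
    · intro b _ hb
      rw [coeff_one, if_neg hb]
      norm_num
    · intro h
      simp at h
  rw [KM, h1, h2, ev]
  simp

/-- `‖t‖ ≤ (π / 2) |e^{it} - 1|` -/
lemma norm_le_chord (t : T1) : ‖t‖ ≤ π / 2 * ‖(fourier 1 t : ℂ) - 1‖ := by
  obtain ⟨x, hx, rfl⟩ : ∃ x : ℝ, x ∈ Set.Ioc (-π) (-π + 2 * π) ∧ (x : T1) = t := by
    have := (AddCircle.equivIoc (2 * π) (-π)).symm_apply_apply
    obtain ⟨y, hy⟩ := (AddCircle.equivIoc (2 * π) (-π)).symm.surjective t
    exact ⟨y.1, y.2, hy⟩
  have hx1 : |x| ≤ π := by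
    rw [abs_le]
    constructor <;> linarith [hx.1, hx.2]
  have h1 : ‖(x : T1)‖ = |x| := by
    rw [AddCircle.norm_coe_eq_abs_iff _ Real.two_pi_pos.ne', abs_of_pos Real.two_pi_pos]
    linarith
  rw [h1, fourier_coe_apply]
  have h2 : 2 * (π : ℂ) * Complex.I * ((1 : ℤ) : ℂ) * x / ((2 * π : ℝ) : ℂ) = Complex.I * x := by
    have : (π : ℂ) ≠ 0 := by exact_mod_cast Real.pi_ne_zero
    push_cast
    field_simp
  rw [h2, Complex.norm_exp_I_mul_ofReal_sub_one]
  have h3 : |x / 2| ≤ π / 2 := by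
    rw [abs_div, abs_two]
    linarith
  have h4 := Real.mul_abs_le_abs_sin h3
  rw [Real.norm_eq_abs, abs_mul, abs_two]
  rw [abs_div, abs_two] at h4
  have hpi := Real.pi_pos
  have h5 : π / 2 * (2 / π * (|x| / 2)) = |x| / 2 := by
    field_simp
  nlinarith [mul_le_mul_of_nonneg_left h4 (by positivity : (0 : ℝ) ≤ π / 2)]

/-- the basic moment bound -/
lemma integral_KM_chord (l M : ℕ) (hM : 1 ≤ M) :
    ∫ t, KM l M t * ‖(fourier 1 t : ℂ) - 1‖ ^ (2 * l) ∂μ1 ≤ 4 ^ l * M / SM l M := by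
  have hid : (X - 1 : ℝ[X]) ^ l * PM l M = (X ^ M - 1) ^ l * ∑ i ∈ Finset.range M, X ^ i := by
    rw [PM, pow_succ, ← mul_assoc, ← mul_pow, mul_geom_sum]
  have h1 : ∀ t : T1, KM l M t * ‖(fourier 1 t : ℂ) - 1‖ ^ (2 * l) ≤
      4 ^ l * ‖ev (∑ i ∈ Finset.range M, X ^ i) t‖ ^ 2 / SM l M := by
    intro t
    have h2 : ‖ev (PM l M) t‖ ^ 2 * ‖(fourier 1 t : ℂ) - 1‖ ^ (2 * l) =
        ‖(fourier 1 t : ℂ) ^ M - 1‖ ^ (2 * l) * ‖ev (∑ i ∈ Finset.range M, X ^ i) t‖ ^ 2 := by
      have h3 := congrArg (fun p => ‖aeval (fourier 1 t : ℂ) p‖ ^ 2) hid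
      simp only [map_mul, map_pow, map_sub, aeval_X, map_one, norm_mul, norm_pow, mul_pow] at h3
      rw [← pow_mul, ← pow_mul, mul_comm l 2] at h3
      rw [mul_comm]
      exact h3
    have h4 : ‖(fourier 1 t : ℂ) ^ M - 1‖ ≤ 2 := by
      refine (norm_sub_le _ _).trans ?_
      rw [norm_pow, fourier_apply, Circle.norm_coe]
      norm_num
    have h5 : ‖(fourier 1 t : ℂ) ^ M - 1‖ ^ (2 * l) ≤ 4 ^ l := by
      calc ‖(fourier 1 t : ℂ) ^ M - 1‖ ^ (2 * l) ≤ 2 ^ (2 * l) :=
            pow_le_pow_left₀ (norm_nonneg _) h4 _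
        _ = 4 ^ l := by rw [pow_mul]; norm_num
    rw [KM, div_mul_eq_mul_div, h2]
    apply div_le_div_of_nonneg_right _ (SM_pos l M hM).le
    exact mul_le_mul_of_nonneg_right h5 (by positivity)
  refine (integral_mono ?_ ?_ h1).trans ?_
  · apply integrable_of_continuous
    exact (continuous_KM l M).mul (((fourier 1).continuous.sub continuous_const).norm.pow _)
  · apply integrable_of_continuous
    exact ((continuous_const.mul ((continuous_ev _).norm.pow 2)).div_const _)
  · rw [integral_div, integral_const_mul, integral_norm_sq_ev _ (natDegree_geom M hM)]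
    apply le_of_eq
    congr 2
    have : ∀ a ∈ Finset.range M, (∑ i ∈ Finset.range M, (X : ℝ[X]) ^ i).coeff a ^ 2 = 1 := by
      intro a ha
      rw [finsetSum_coeff]
      simp only [coeff_X_pow]
      rw [Finset.sum_ite_eq, if_pos ha, one_pow]
    rw [Finset.sum_congr rfl this]
    simp

/-- constant in the moment bound -/
noncomputable def C0 (l : ℕ) : ℝ := 1 + (π / 2) ^ (2 * l) * (4 ^ l * (l + 1))

lemma C0_ge_one (l : ℕ) : 1 ≤ C0 l := by
  unfold C0
  have : 0 ≤ (π / 2) ^ (2 * l) * (4 ^ l * ((l : ℝ) + 1)) := by positivity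
  linarith

lemma moment (l M : ℕ) (hM : 1 ≤ M) {r : ℝ} (hr : 0 < r) (hrl : r < l) :
    ∫ t, KM l M t * ‖t‖ ^ r ∂μ1 ≤ C0 l * (M : ℝ) ^ (-r) := by
  have hM' : (0 : ℝ) < M := by exact_mod_cast hM
  have hcn : Continuous fun t : T1 => ‖t‖ ^ r :=
    continuous_norm.rpow_const fun _ => Or.inr hr.le
  have h1 : ∀ t : T1, KM l M t * ‖t‖ ^ r ≤
      (KM l M t + (π / 2) ^ (2 * l) * (M : ℝ) ^ (2 * l) *
        (KM l M t * ‖(fourier 1 t : ℂ) - 1‖ ^ (2 * l))) * (M : ℝ) ^ (-r) := by
    intro t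
    have hK := KM_nonneg l M hM t
    have h2 : ‖t‖ ^ r = (M * ‖t‖) ^ r * (M : ℝ) ^ (-r) := by
      rw [Real.mul_rpow hM'.le (norm_nonneg _), mul_right_comm, ← Real.rpow_add hM']
      simp
    have h3 : (M * ‖t‖) ^ r ≤ 1 + (M * ‖t‖) ^ (2 * l) := by
      have h0 : 0 ≤ (M : ℝ) * ‖t‖ := by positivity
      rcases le_total ((M : ℝ) * ‖t‖) 1 with h | h
      · have := Real.rpow_le_one h0 h hr.le
        have : 0 ≤ ((M : ℝ) * ‖t‖) ^ (2 * l) := by positivity
        linarith
      · have h4 : ((M : ℝ) * ‖t‖) ^ r ≤ ((M : ℝ) * ‖t‖) ^ ((2 * l : ℕ) : ℝ) := by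
          apply Real.rpow_le_rpow_of_exponent_le h
          push_cast
          have : (0 : ℝ) ≤ l := Nat.cast_nonneg l
          linarith
        rw [Real.rpow_natCast] at h4
        linarith
    have h5 : ((M : ℝ) * ‖t‖) ^ (2 * l) ≤
        (π / 2) ^ (2 * l) * (M : ℝ) ^ (2 * l) * ‖(fourier 1 t : ℂ) - 1‖ ^ (2 * l) := by
      rw [mul_pow]
      have := pow_le_pow_left₀ (norm_nonneg t) (norm_le_chord t) (2 * l)
      rw [mul_pow] at this
      nlinarith [pow_pos hM' (2 * l)]
    calc KM l M t * ‖t‖ ^ r = KM l M t * (M * ‖t‖) ^ r * (M : ℝ) ^ (-r) := by rw [h2]; ring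
      _ ≤ KM l M t * (1 + (π / 2) ^ (2 * l) * (M : ℝ) ^ (2 * l) *
          ‖(fourier 1 t : ℂ) - 1‖ ^ (2 * l)) * (M : ℝ) ^ (-r) := by
          apply mul_le_mul_of_nonneg_right _ (Real.rpow_nonneg hM'.le _)
          apply mul_le_mul_of_nonneg_left _ hK
          linarith
      _ = _ := by ring
  refine (integral_mono ?_ ?_ h1).trans ?_
  · exact integrable_of_continuous ((continuous_KM l M).mul hcn)
  · apply integrable_of_continuous
    exact (((continuous_KM l M).add (continuous_const.mul ((continuous_KM l M).mul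
      (((fourier 1).continuous.sub continuous_const).norm.pow _))))).mul continuous_const
  · rw [integral_mul_const, integral_add, integral_KM l M hM, integral_const_mul]
    · apply mul_le_mul_of_nonneg_right _ (Real.rpow_nonneg hM'.le _)
      unfold C0
      have h6 := integral_KM_chord l M hM
      have h7 : (M : ℝ) ^ (2 * l) * (4 ^ l * M / SM l M) ≤ 4 ^ l * (l + 1) := by
        rw [mul_div_assoc', div_le_iff₀ (SM_pos l M hM)]
        have := SM_ge l M hM
        calc (M : ℝ) ^ (2 * l) * (4 ^ l * M) = 4 ^ l * (M : ℝ) ^ (2 * l + 1) := by ring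
          _ ≤ 4 ^ l * ((l + 1) * SM l M) := by gcongr
          _ = _ := by ring
      have h8 : (π / 2) ^ (2 * l) * (M : ℝ) ^ (2 * l) *
          ∫ t, KM l M t * ‖(fourier 1 t : ℂ) - 1‖ ^ (2 * l) ∂μ1 ≤
          (π / 2) ^ (2 * l) * ((M : ℝ) ^ (2 * l) * (4 ^ l * M / SM l M)) := by
        rw [mul_assoc]
        gcongr
      have h9 : (π / 2) ^ (2 * l) * ((M : ℝ) ^ (2 * l) * (4 ^ l * M / SM l M)) ≤
          (π / 2) ^ (2 * l) * (4 ^ l * (l + 1)) := by gcongr
      linarith
    · exact integrable_of_continuous (continuous_KM l M)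
    · apply integrable_of_continuous
      exact continuous_const.mul ((continuous_KM l M).mul
        (((fourier 1).continuous.sub continuous_const).norm.pow _))

end Pool.Agent.Helper65.LW
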