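import Mathlib
import Pool.Agent.Helper65.LW.Kernel

set_option autoImplicit false

/-!
Push-forward kernels and the one-dimensional identities.
-/

namespace Pool.Agent.Helper65.LW

open MeasureTheory AddCircle Polynomial
open Pool.Agent.Helper40.LinWidth
open scoped Real ComplexConjugate

/-- push-forward of `cos (n t) dt` under `t ↦ k t` -/
noncomputable def pf (k : ℕ) (n : ℤ) (v : T1) : ℝ := if (k : ℤ) ∣ n then cs (n / k) v else 0

lemma continuous_pf (k : ℕ) (n : ℤ) : Continuous (pf k n) := by
  unfold pf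
  split_ifs
  · exact continuous_cs _
  · exact continuous_const

lemma measurePreserving_nsmul1 (k : ℕ) (hk : 1 ≤ k) :
    MeasurePreserving (fun t : T1 => k • t) μ1 μ1 := by
  have h := Measure.measurePreserving_zsmul (μ := μ1) (n := (k : ℤ)) (by exact_mod_cast (by omega : k ≠ 0))
  simpa using h

lemma integral_nsmul_comp (k : ℕ) (hk : 1 ≤ k) (G : T1 → ℝ) (hG : Continuous G) :
    ∫ t, G (k • t) ∂μ1 = ∫ v, G v ∂μ1 := by
  have h := measurePreserving_nsmul1 k hk
  have h1 := integral_map (μ := μ1) h.measurable.aemeasurable (f := G)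
    hG.aestronglyMeasurable
  rw [h.map_eq] at h1
  exact h1.symm

lemma cs_nsmul (m : ℤ) (k : ℕ) (t : T1) : cs m (k • t) = cs (m * k) t := by
  rw [cs, cs, fourier_apply, fourier_apply, mul_zsmul, natCast_zsmul]

lemma integral_pf (k : ℕ) (hk : 1 ≤ k) (n : ℤ) (G : T1 → ℝ) (hG : Continuous G) :
    ∫ t, cs n t * G (k • t) ∂μ1 = ∫ v, pf k n v * G v ∂μ1 := by
  by_cases h : (k : ℤ) ∣ n
  · simp only [pf, if_pos h]
    rw [← integral_nsmul_comp k hk (fun v => cs (n / k) v * G v) ((continuous_cs _).mul hG)]
    simp_rw [cs_nsmul]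
    rw [Int.ediv_mul_cancel h]
  · simp only [pf, if_neg h, zero_mul, integral_zero]
    let a : T1 := ((2 * π / k : ℝ) : T1)
    have hk0 : (k : ℝ) ≠ 0 := by exact_mod_cast (by omega : k ≠ 0)
    have ha : k • a = 0 := by
      show k • ((2 * π / k : ℝ) : T1) = 0
      rw [← AddCircle.coe_nsmul, nsmul_eq_mul, mul_div_cancel₀ _ hk0]
      exact AddCircle.coe_period _
    have hω : (fourier n a : ℂ) ≠ 1 := by
      intro h1
      rw [show a = ((2 * π / k : ℝ) : T1) from rfl, fourier_coe_apply, Complex.exp_eq_one_iff] at h1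
      obtain ⟨m, hm⟩ := h1
      apply h
      refine ⟨m, ?_⟩
      have hpi : (π : ℂ) ≠ 0 := by exact_mod_cast Real.pi_ne_zero
      have hk0' : (k : ℂ) ≠ 0 := by exact_mod_cast hk0
      have h2 : (n : ℂ) = k * m := by
        push_cast at hm
        field_simp at hm
        linear_combination hm
      exact_mod_cast h2
    have hcont : Continuous fun t : T1 => (fourier n t : ℂ) * (G (k • t) : ℂ) :=
      (fourier n).continuous.mul (Complex.continuous_ofReal.comp (hG.comp (continuous_nsmul k)))
    have hI : ∫ t, (fourier n t : ℂ) * (G (k • t) : ℂ) ∂μ1 = 0 := by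
      have h3 := integral_add_right_eq_self (μ := μ1)
        (fun t : T1 => (fourier n t : ℂ) * (G (k • t) : ℂ)) a
      have h4 : ∀ t : T1, (fourier n (t + a) : ℂ) * (G (k • (t + a)) : ℂ) =
          fourier n a * ((fourier n t : ℂ) * (G (k • t) : ℂ)) := by
        intro t
        rw [nsmul_add, ha, add_zero]
        have : (fourier n (t + a) : ℂ) = fourier n t * fourier n a := by
          rw [fourier_apply, fourier_apply, fourier_apply, zsmul_add, toCircle_add, Circle.coe_mul]
        rw [this]
        ring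
      simp_rw [h4] at h3
      rw [integral_const_mul] at h3
      have h5 : ((fourier n a : ℂ) - 1) * ∫ t, (fourier n t : ℂ) * (G (k • t) : ℂ) ∂μ1 = 0 := by
        rw [sub_mul, one_mul, h3, sub_self]
      exact (mul_eq_zero.1 h5).resolve_left (sub_ne_zero.2 hω)
    have h6 := Complex.reCLM.integral_comp_comm (μ := μ1)
      (φ := fun t : T1 => (fourier n t : ℂ) * (G (k • t) : ℂ)) (integrable_of_continuous hcont)
    rw [hI] at h6
    have h7 : ∀ t : T1, Complex.reCLM ((fourier n t : ℂ) * (G (k • t) : ℂ)) = cs n t * G (k • t) := by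
      intro t
      show ((fourier n t : ℂ) * (G (k • t) : ℂ)).re = _
      rw [Complex.re_mul_ofReal]
      rfl
    simp_rw [h7] at h6
    rw [h6]
    simp

/-- `(-1)^k (l choose k)` -/
noncomputable def gm (l k : ℕ) : ℝ := (-1) ^ k * (l.choose k : ℝ)

lemma sum_gm (l : ℕ) (hl : 1 ≤ l) : ∑ k ∈ Finset.range (l + 1), gm l k = 0 := by
  have h := Int.alternating_sum_range_choose_of_ne (n := l) (by omega)
  have h2 : ((∑ m ∈ Finset.range (l + 1), ((-1) ^ m * (l.choose m : ℤ)) : ℤ) : ℝ) = ((0 : ℤ) : ℝ) := by
    rw [h]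
  push_cast at h2
  exact h2

lemma range_eq (l : ℕ) : Finset.range (l + 1) = insert 0 (Finset.Icc 1 l) := by
  ext k
  simp only [Finset.mem_range, Finset.mem_insert, Finset.mem_Icc]
  omega

lemma sum_gm_Icc (l : ℕ) (hl : 1 ≤ l) : ∑ k ∈ Finset.Icc 1 l, -gm l k = 1 := by
  have h := sum_gm l hl
  rw [range_eq, Finset.sum_insert (by simp)] at h
  rw [Finset.sum_neg_distrib]
  have : gm l 0 = 1 := by simp [gm]
  linarith

/-- the kernel of the one-dimensional operator -/
noncomputable def qM (l M : ℕ) (v : T1) : ℝ :=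
  ∑ k ∈ Finset.Icc 1 l, -gm l k * ∑ a ∈ Finset.range ((l + 1) * M),
    ∑ b ∈ Finset.range ((l + 1) * M), (PM l M).coeff a * (PM l M).coeff b / SM l M *
      pf k ((a : ℤ) - b) v

lemma continuous_qM (l M : ℕ) : Continuous (qM l M) := by
  unfold qM
  exact continuous_finsetSum _ fun k _ => continuous_const.mul
    (continuous_finsetSum _ fun a _ => continuous_finsetSum _ fun b _ =>
      continuous_const.mul (continuous_pf _ _))

lemma KM_eq_sum (l M : ℕ) (hM : 1 ≤ M) (t : T1) :
    KM l M t = ∑ a ∈ Finset.range ((l + 1) * M), ∑ b ∈ Finset.range ((l + 1) * M),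
      (PM l M).coeff a * (PM l M).coeff b / SM l M * cs ((a : ℤ) - b) t := by
  rw [KM, norm_sq_ev _ (natDegree_PM l M hM), Finset.sum_div]
  apply Finset.sum_congr rfl
  intro a _
  rw [Finset.sum_div]
  apply Finset.sum_congr rfl
  intro b _
  ring

lemma integral_qM (l M : ℕ) (hM : 1 ≤ M) (G : T1 → ℝ) (hG : Continuous G) :
    ∫ v, qM l M v * G v ∂μ1 = ∫ t, KM l M t * ∑ k ∈ Finset.Icc 1 l, -gm l k * G (k • t) ∂μ1 := by
  have hGk : ∀ k : ℕ, Continuous fun t : T1 => G (k • t) := fun k => hG.comp (continuous_nsmul k)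
  have h1 : ∀ k ∈ Finset.Icc 1 l, ∫ t, KM l M t * G (k • t) ∂μ1 =
      ∫ v, (∑ a ∈ Finset.range ((l + 1) * M), ∑ b ∈ Finset.range ((l + 1) * M),
        (PM l M).coeff a * (PM l M).coeff b / SM l M * pf k ((a : ℤ) - b) v) * G v ∂μ1 := by
    intro k hk
    rw [Finset.mem_Icc] at hk
    simp_rw [KM_eq_sum l M hM, Finset.sum_mul]
    rw [integral_finsetSum, integral_finsetSum]
    · apply Finset.sum_congr rfl
      intro a _
      rw [integral_finsetSum, integral_finsetSum]
      · apply Finset.sum_congr rfl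
        intro b _
        simp_rw [mul_assoc]
        rw [integral_const_mul, integral_const_mul, integral_pf k hk.1 _ G hG]
      · intro b _
        exact integrable_of_continuous ((continuous_const.mul (continuous_pf _ _)).mul hG)
      · intro b _
        exact integrable_of_continuous ((continuous_const.mul (continuous_cs _)).mul (hGk k))
    · intro a _
      exact integrable_of_continuous (continuous_finsetSum _ fun b _ =>
        (continuous_const.mul (continuous_pf _ _)).mul hG)
    · intro a _
      exact integrable_of_continuous (continuous_finsetSum _ fun b _ =>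
        (continuous_const.mul (continuous_cs _)).mul (hGk k))
  have hL : ∫ v, qM l M v * G v ∂μ1 = ∑ k ∈ Finset.Icc 1 l, -gm l k *
      ∫ v, (∑ a ∈ Finset.range ((l + 1) * M), ∑ b ∈ Finset.range ((l + 1) * M),
        (PM l M).coeff a * (PM l M).coeff b / SM l M * pf k ((a : ℤ) - b) v) * G v ∂μ1 := by
    simp_rw [qM, Finset.sum_mul (s := Finset.Icc 1 l)]
    rw [integral_finsetSum]
    · apply Finset.sum_congr rfl
      intro k _
      rw [← integral_const_mul]
      congr 1
      ext v
      ring
    · intro k _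
      exact integrable_of_continuous ((continuous_const.mul
        (continuous_finsetSum _ fun a _ => continuous_finsetSum _ fun b _ =>
          continuous_const.mul (continuous_pf _ _))).mul hG)
  have hR : ∫ t, KM l M t * ∑ k ∈ Finset.Icc 1 l, -gm l k * G (k • t) ∂μ1 =
      ∑ k ∈ Finset.Icc 1 l, -gm l k * ∫ t, KM l M t * G (k • t) ∂μ1 := by
    simp_rw [Finset.mul_sum]
    rw [integral_finsetSum]
    · apply Finset.sum_congr rfl
      intro k _
      rw [← integral_const_mul]
      congr 1
      ext v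
      ring
    · intro k _
      exact integrable_of_continuous ((continuous_KM l M).mul (continuous_const.mul (hGk k)))
  rw [hL, hR]
  apply Finset.sum_congr rfl
  intro k hk
  rw [h1 k hk]

/-- identity for `q_M` with the term `k = 0` added -/
lemma qM_identity (l M : ℕ) (hM : 1 ≤ M) (G : T1 → ℝ) (hG : Continuous G) :
    ∫ v, qM l M v * G v ∂μ1 = ∑ k ∈ Finset.range (l + 1),
      ∫ t, KM l M t * ((if k = 0 then 1 else 0) - gm l k) * G (k • t) ∂μ1 := by
  have hGk : ∀ k : ℕ, Continuous fun t : T1 => G (k • t) := fun k => hG.comp (continuous_nsmul k)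
  rw [integral_qM l M hM G hG, range_eq, Finset.sum_insert (by simp)]
  have h0 : gm l 0 = 1 := by simp [gm]
  simp only [h0, if_true, sub_self, mul_zero, zero_mul, integral_zero, zero_add]
  simp_rw [Finset.mul_sum]
  rw [integral_finsetSum]
  · apply Finset.sum_congr rfl
    intro k hk
    rw [Finset.mem_Icc] at hk
    rw [if_neg (by omega)]
    congr 1
    ext t
    ring
  · intro k _
    exact integrable_of_continuous ((continuous_KM l M).mul (continuous_const.mul (hGk k)))

/-- dyadic differences of the kernels -/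
noncomputable def qs (l : ℕ) : ℕ → T1 → ℝ
  | 0 => qM l 1
  | s + 1 => fun v => qM l (2 ^ (s + 1)) v - qM l (2 ^ s) v

lemma continuous_qs (l s : ℕ) : Continuous (qs l s) := by
  cases s with
  | zero => exact continuous_qM l 1
  | succ s => exact (continuous_qM _ _).sub (continuous_qM _ _)

lemma sum_qs (l N : ℕ) (v : T1) : ∑ s ∈ Finset.range (N + 1), qs l s v = qM l (2 ^ N) v := by
  induction N with
  | zero => simp [qs]
  | succ N ih =>
    rw [Finset.sum_range_succ, ih]
    simp [qs]

/-- weights in the identity for `qs` -/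
noncomputable def wt (l : ℕ) : ℕ → ℕ → T1 → ℝ
  | 0 => fun k _ => if k = 0 then 1 else 0
  | s + 1 => fun k t => (KM l (2 ^ s) t - KM l (2 ^ (s + 1)) t) * gm l k

/-- base points in the identity for `qs` -/
noncomputable def bp : ℕ → T1 → T1
  | 0 => fun t => t
  | _ + 1 => fun _ => 0

lemma continuous_wt (l s k : ℕ) : Continuous (wt l s k) := by
  cases s with
  | zero => exact continuous_const
  | succ s => exact ((continuous_KM _ _).sub (continuous_KM _ _)).mul continuous_const

lemma continuous_bp (s : ℕ) : Continuous (bp s) := by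
  cases s with
  | zero => exact continuous_id
  | succ s => exact continuous_const

lemma qs_identity (l s : ℕ) (hl : 1 ≤ l) (G : T1 → ℝ) (hG : Continuous G) :
    ∫ v, qs l s v * G v ∂μ1 = ∑ k ∈ Finset.range (l + 1),
      ∫ t, wt l s k t * G (bp s t + k • t) ∂μ1 := by
  have hGk : ∀ k : ℕ, Continuous fun t : T1 => G (k • t) := fun k => hG.comp (continuous_nsmul k)
  cases s with
  | zero =>
    show ∫ v, qM l 1 v * G v ∂μ1 = ∑ k ∈ Finset.range (l + 1),
      ∫ t, (if k = 0 then 1 else 0) * G (t + k • t) ∂μ1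
    rw [integral_qM l 1 le_rfl G hG, Finset.sum_eq_single 0]
    · simp only [KM_one, one_mul, if_true, zero_smul, add_zero]
      rw [integral_finsetSum]
      · simp_rw [integral_const_mul]
        rw [← one_mul (∫ t, G t ∂μ1), ← sum_gm_Icc l hl, Finset.sum_mul]
        apply Finset.sum_congr rfl
        intro k hk
        rw [Finset.mem_Icc] at hk
        rw [integral_nsmul_comp k hk.1 G hG]
      · intro k _
        exact integrable_of_continuous (continuous_const.mul (hGk k))
    · intro k _ hk
      simp [hk]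
    · intro h
      simp at h
  | succ s =>
    show ∫ v, (qM l (2 ^ (s + 1)) v - qM l (2 ^ s) v) * G v ∂μ1 = ∑ k ∈ Finset.range (l + 1),
      ∫ t, (KM l (2 ^ s) t - KM l (2 ^ (s + 1)) t) * gm l k * G (0 + k • t) ∂μ1
    simp_rw [sub_mul]
    have e1 : (1 : ℕ) ≤ 2 ^ (s + 1) := Nat.one_le_two_pow
    have e2 : (1 : ℕ) ≤ 2 ^ s := Nat.one_le_two_pow
    have e3 : ∫ v, qM l (2 ^ (s + 1)) v * G v - qM l (2 ^ s) v * G v ∂μ1 =
        ∫ v, qM l (2 ^ (s + 1)) v * G v ∂μ1 - ∫ v, qM l (2 ^ s) v * G v ∂μ1 :=
      integral_sub (integrable_of_continuous ((continuous_qM _ _).mul hG))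
        (integrable_of_continuous ((continuous_qM _ _).mul hG))
    rw [e3, qM_identity l _ e1 G hG, qM_identity l _ e2 G hG, ← Finset.sum_sub_distrib]
    simp only [zero_add]
    have h3 : ∀ k ∈ Finset.range (l + 1),
        ∫ t, KM l (2 ^ (s + 1)) t * ((if k = 0 then 1 else 0) - gm l k) * G (k • t) ∂μ1 -
        ∫ t, KM l (2 ^ s) t * ((if k = 0 then 1 else 0) - gm l k) * G (k • t) ∂μ1 =
        (∫ t, KM l (2 ^ s) t * gm l k * G (k • t) - KM l (2 ^ (s + 1)) t * gm l k * G (k • t) ∂μ1) +
        (if k = 0 then 1 else 0) * (∫ t, (KM l (2 ^ (s + 1)) t - KM l (2 ^ s) t) * G (k • t) ∂μ1) := by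
      intro k _
      rw [← integral_sub, ← integral_const_mul, ← integral_add]
      · congr 1
        ext t
        ring
      · exact integrable_of_continuous ((((continuous_KM _ _).mul continuous_const).mul (hGk k)).sub
          (((continuous_KM _ _).mul continuous_const).mul (hGk k)))
      · exact integrable_of_continuous (continuous_const.mul
          (((continuous_KM _ _).sub (continuous_KM _ _)).mul (hGk k)))
      · exact integrable_of_continuous (((continuous_KM _ _).mul continuous_const).mul (hGk k))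
      · exact integrable_of_continuous (((continuous_KM _ _).mul continuous_const).mul (hGk k))
    rw [Finset.sum_congr rfl h3, Finset.sum_add_distrib]
    have h4 : ∑ k ∈ Finset.range (l + 1), (if k = 0 then (1 : ℝ) else 0) *
        (∫ t, (KM l (2 ^ (s + 1)) t - KM l (2 ^ s) t) * G (k • t) ∂μ1) = 0 := by
      rw [Finset.sum_eq_single 0]
      · simp only [if_true, zero_smul, one_mul]
        rw [integral_mul_const, integral_sub (integrable_of_continuous (continuous_KM _ _))
          (integrable_of_continuous (continuous_KM _ _)), integral_KM l _ e1, integral_KM l _ e2]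
        simp
      · intro k _ hk
        simp [hk]
      · intro h
        simp at h
    rw [h4, add_zero]

/-! ### even trigonometric polynomials -/

/-- `g` is an even trigonometric polynomial of degree at most `D` -/
def ET (D : ℕ) (g : T1 → ℝ) : Prop :=
  ∃ c : ℕ → ℝ, ∀ v, g v = ∑ n ∈ Finset.range (D + 1), c n * cs (n : ℤ) v

lemma ET.zero (D : ℕ) : ET D (fun _ => 0) := ⟨fun _ => 0, fun v => by simp⟩

lemma ET.add {D : ℕ} {g h : T1 → ℝ} (hg : ET D g) (hh : ET D h) : ET D (fun v => g v + h v) := by
  obtain ⟨c, hc⟩ := hg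
  obtain ⟨c', hc'⟩ := hh
  refine ⟨fun n => c n + c' n, fun v => ?_⟩
  simp only
  rw [hc, hc', ← Finset.sum_add_distrib]
  apply Finset.sum_congr rfl
  intro n _
  ring

lemma ET.const_mul {D : ℕ} {g : T1 → ℝ} (hg : ET D g) (a : ℝ) : ET D (fun v => a * g v) := by
  obtain ⟨c, hc⟩ := hg
  refine ⟨fun n => a * c n, fun v => ?_⟩
  simp only
  rw [hc, Finset.mul_sum]
  apply Finset.sum_congr rfl
  intro n _
  ring

lemma ET.sum {D : ℕ} {ι : Type*} (s : Finset ι) {g : ι → T1 → ℝ} (hg : ∀ i ∈ s, ET D (g i)) :
    ET D (fun v => ∑ i ∈ s, g i v) := by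
  classical
  induction s using Finset.induction_on with
  | empty => simpa using ET.zero D
  | insert a s ha ih =>
    have h1 := (hg a (Finset.mem_insert_self a s)).add
      (ih fun i hi => hg i (Finset.mem_insert_of_mem hi))
    simpa [Finset.sum_insert ha] using h1

lemma ET.mono {D D' : ℕ} {g : T1 → ℝ} (hg : ET D g) (h : D ≤ D') : ET D' g := by
  obtain ⟨c, hc⟩ := hg
  refine ⟨fun n => if n ≤ D then c n else 0, fun v => ?_⟩
  rw [hc]
  have h1 : Finset.range (D + 1) ⊆ Finset.range (D' + 1) := Finset.range_subset_range.2 (by omega)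
  rw [← Finset.sum_subset h1 (f := fun n => (if n ≤ D then c n else 0) * cs (n : ℤ) v)]
  · apply Finset.sum_congr rfl
    intro n hn
    rw [Finset.mem_range] at hn
    rw [if_pos (by omega)]
  · intro n _ hn
    rw [Finset.mem_range] at hn
    rw [if_neg (by omega), zero_mul]

lemma ET_cs {D : ℕ} {n : ℤ} (hn : n.natAbs ≤ D) : ET D (cs n) := by
  refine ⟨fun m => if m = n.natAbs then 1 else 0, fun v => ?_⟩
  rw [Finset.sum_eq_single n.natAbs]
  · simp only [if_true, one_mul]
    rw [cs_natAbs]
  · intro m _ hm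
    simp only [if_neg hm, zero_mul]
  · intro h
    rw [Finset.mem_range] at h
    omega

lemma ET_pf {D k : ℕ} {n : ℤ} (hn : n.natAbs ≤ D) : ET D (pf k n) := by
  unfold pf
  split_ifs with h
  · apply ET_cs
    refine le_trans ?_ hn
    rcases Nat.eq_zero_or_pos k with rfl | hk
    · simp
    · obtain ⟨m, rfl⟩ := h
      rw [Int.mul_ediv_cancel_left _ (by exact_mod_cast (by omega : k ≠ 0)), Int.natAbs_mul,
        Int.natAbs_natCast]
      exact Nat.le_mul_of_pos_left _ hk
  · exact ET.zero D

lemma ET_qM (l M : ℕ) : ET ((l + 1) * M) (qM l M) := by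
  unfold qM
  refine ET.sum _ fun k _ => ET.const_mul (ET.sum _ fun a ha => ET.sum _ fun b hb =>
    ET.const_mul (ET_pf ?_) _) _
  rw [Finset.mem_range] at ha hb
  omega

lemma ET_qs (l s : ℕ) : ET ((l + 1) * 2 ^ s) (qs l s) := by
  cases s with
  | zero => simpa [qs] using ET_qM l 1
  | succ s =>
    have h1 := (ET_qM l (2 ^ (s + 1))).add (((ET_qM l (2 ^ s)).mono
      (D' := (l + 1) * 2 ^ (s + 1)) (Nat.mul_le_mul_left _ (Nat.pow_le_pow_right (by norm_num)
        (Nat.le_succ s)))).const_mul (-1))
    refine (by simpa [qs, sub_eq_add_neg] using h1)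

end Pool.Agent.Helper65.LW
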