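import Mathlib
import Pool.Agent.Helper65.LW.Push

set_option autoImplicit false

/-!
Tensorisation of one-dimensional identities.
-/

namespace Pool.Agent.Helper65.LW

open MeasureTheory AddCircle
open Pool.Agent.Helper40.LinWidth
open scoped Real

lemma integrable_of_continuous' {d : ℕ} {E : Type*} [NormedAddCommGroup E] {f : Torus d → E}
    (hf : Continuous f) : Integrable f (torusMeasure d) :=
  hf.integrable_of_hasCompactSupport (HasCompactSupport.of_compactSpace _)

/-- integration as a continuous linear functional -/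
noncomputable def intC (d : ℕ) : C(Torus d, ℝ) →L[ℝ] ℝ :=
  LinearMap.mkContinuous
    { toFun := fun F => ∫ v, F v ∂(torusMeasure d)
      map_add' := fun F G => integral_add (integrable_of_continuous' F.continuous)
        (integrable_of_continuous' G.continuous)
      map_smul' := fun c F => integral_const_mul c _ } 1 (by
    intro F
    rw [one_mul]
    have h := norm_integral_le_of_norm_le_const (μ := torusMeasure d) (f := fun v => F v)
      (C := ‖F‖) (Filter.Eventually.of_forall fun v => F.norm_coe_le_norm v)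
    simpa using h)

lemma intC_apply {d : ℕ} (F : C(Torus d, ℝ)) : intC d F = ∫ v, F v ∂(torusMeasure d) := rfl

/-- the functions of one coordinate -/
def oneCoord (d : ℕ) : Set C(Torus d, ℝ) :=
  {f | ∃ (j : Fin d) (g : C(T1, ℝ)), ∀ v, f v = g (v j)}

lemma adjoin_closure (d : ℕ) :
    (Algebra.adjoin ℝ (oneCoord d)).topologicalClosure = ⊤ := by
  apply ContinuousMap.subalgebra_topologicalClosure_eq_top_of_separatesPoints
  intro x y hxy
  obtain ⟨j, hj⟩ := Function.ne_iff.1 hxy
  let g : C(T1, ℝ) := ⟨fun t => dist t (x j), by fun_prop⟩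
  let f : C(Torus d, ℝ) := ⟨fun v => g (v j), by fun_prop⟩
  refine ⟨f, ⟨f, Algebra.subset_adjoin ⟨j, g, fun v => rfl⟩, rfl⟩, ?_⟩
  show dist (x j) (x j) ≠ dist (y j) (x j)
  rw [dist_self]
  exact (dist_pos.2 (Ne.symm hj)).ne

lemma mem_closure_prod {d : ℕ} {f : C(Torus d, ℝ)} (hf : f ∈ Submonoid.closure (oneCoord d)) :
    ∃ g : Fin d → C(T1, ℝ), ∀ v, f v = ∏ j, g j (v j) := by
  classical
  induction hf using Submonoid.closure_induction with
  | mem f hf =>
    obtain ⟨j, g, hg⟩ := hf
    refine ⟨fun i => if i = j then g else 1, fun v => ?_⟩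
    rw [hg, Finset.prod_eq_single j]
    · simp
    · intro i _ hi
      simp [hi]
    · intro h
      exact absurd (Finset.mem_univ j) h
  | one => exact ⟨fun _ => 1, fun v => by simp⟩
  | mul f f' _ _ h h' =>
    obtain ⟨g, hg⟩ := h
    obtain ⟨g', hg'⟩ := h'
    refine ⟨fun j => g j * g' j, fun v => ?_⟩
    rw [ContinuousMap.mul_apply, hg, hg', ← Finset.prod_mul_distrib]
    rfl

theorem tensor {d : ℕ} (I : Finset ℕ) (q : Fin d → T1 → ℝ) (hq : ∀ j, Continuous (q j))
    (b : Fin d → ℕ → T1 → ℝ) (hb : ∀ j k, Continuous (b j k))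
    (ψ : Fin d → ℕ → T1 → T1) (hψ : ∀ j k, Continuous (ψ j k))
    (h1 : ∀ j, ∀ G : T1 → ℝ, Continuous G →
      ∫ v, q j v * G v ∂μ1 = ∑ k ∈ I, ∫ t, b j k t * G (ψ j k t) ∂μ1)
    (F : Torus d → ℝ) (hF : Continuous F) :
    ∫ v, (∏ j, q j (v j)) * F v ∂(torusMeasure d) =
      ∑ k ∈ Fintype.piFinset (fun _ : Fin d => I),
        ∫ t, (∏ j, b j (k j) (t j)) * F (fun j => ψ j (k j) (t j)) ∂(torusMeasure d) := by
  classical
  let Q : C(Torus d, ℝ) := ⟨fun v => ∏ j, q j (v j), by fun_prop⟩
  let B : (Fin d → ℕ) → C(Torus d, ℝ) := fun k => ⟨fun v => ∏ j, b j (k j) (v j), by fun_prop⟩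
  let Ψ : (Fin d → ℕ) → C(Torus d, Torus d) := fun k => ⟨fun t j => ψ j (k j) (t j), by fun_prop⟩
  let 𝓢 : Submodule ℝ C(Torus d, ℝ) :=
    { carrier := {F | intC d (Q * F) =
        ∑ k ∈ Fintype.piFinset (fun _ : Fin d => I), intC d (B k * F.comp (Ψ k))}
      add_mem' := by
        intro F G hF hG
        simp only [Set.mem_ofPred_eq] at hF hG ⊢
        rw [mul_add, map_add, hF, hG, ← Finset.sum_add_distrib]
        apply Finset.sum_congr rfl
        intro k _
        rw [← map_add]
        congr 1
        ext t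
        simp [mul_add]
      zero_mem' := by
        simp only [Set.mem_ofPred_eq]
        rw [mul_zero, map_zero]
        symm
        apply Finset.sum_eq_zero
        intro k _
        have : B k * (0 : C(Torus d, ℝ)).comp (Ψ k) = 0 := by
          ext t
          simp
        rw [this, map_zero]
      smul_mem' := by
        intro c F hF
        simp only [Set.mem_ofPred_eq] at hF ⊢
        rw [mul_smul_comm, map_smul, hF, Finset.smul_sum]
        apply Finset.sum_congr rfl
        intro k _
        rw [← map_smul]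
        congr 1
        ext t
        simp only [ContinuousMap.smul_apply, ContinuousMap.mul_apply, ContinuousMap.comp_apply,
          smul_eq_mul]
        ring }
  have hclosed : IsClosed (𝓢 : Set C(Torus d, ℝ)) := by
    apply isClosed_eq
    · exact (intC d).continuous.comp (continuous_const.mul continuous_id)
    · refine continuous_finsetSum _ fun k _ => (intC d).continuous.comp (continuous_const.mul ?_)
      exact ContinuousMap.continuous_precomp (Ψ k)
  have hprod : ∀ f ∈ Submonoid.closure (oneCoord d), f ∈ 𝓢 := by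
    intro f hf
    obtain ⟨g, hg⟩ := mem_closure_prod hf
    show intC d (Q * f) = ∑ k ∈ Fintype.piFinset (fun _ : Fin d => I), intC d (B k * f.comp (Ψ k))
    have e1 : intC d (Q * f) = ∏ j, ∫ v, q j v * g j v ∂μ1 := by
      rw [intC_apply]
      have : ∀ v, (Q * f) v = ∏ j, (q j (v j) * g j (v j)) := by
        intro v
        rw [ContinuousMap.mul_apply, hg, Finset.prod_mul_distrib]
        rfl
      simp_rw [this]
      exact integral_fintype_prod_eq_prod (μ := fun _ : Fin d => μ1) (fun j v => q j v * g j v)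
    have e2 : ∀ k : Fin d → ℕ, intC d (B k * f.comp (Ψ k)) =
        ∏ j, ∫ t, b j (k j) t * g j (ψ j (k j) t) ∂μ1 := by
      intro k
      rw [intC_apply]
      have : ∀ v, (B k * f.comp (Ψ k)) v = ∏ j, (b j (k j) (v j) * g j (ψ j (k j) (v j))) := by
        intro v
        rw [ContinuousMap.mul_apply, ContinuousMap.comp_apply, hg, Finset.prod_mul_distrib]
        rfl
      simp_rw [this]
      exact integral_fintype_prod_eq_prod (μ := fun _ : Fin d => μ1)
        (fun j t => b j (k j) t * g j (ψ j (k j) t))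
    rw [e1]
    simp_rw [e2]
    have e3 := Finset.prod_univ_sum (fun _ : Fin d => I)
      (fun j k => ∫ t, b j k t * g j (ψ j k t) ∂μ1)
    rw [← e3]
    apply Finset.prod_congr rfl
    intro j _
    exact h1 j _ (g j).continuous
  have hadj : ((Algebra.adjoin ℝ (oneCoord d) : Subalgebra ℝ _) : Set C(Torus d, ℝ)) ⊆ 𝓢 := by
    intro f hf
    have h2 : f ∈ Subalgebra.toSubmodule (Algebra.adjoin ℝ (oneCoord d)) := hf
    rw [Algebra.adjoin_eq_span] at h2
    exact (Submodule.span_le.2 hprod) h2
  have hmem : (⟨F, hF⟩ : C(Torus d, ℝ)) ∈ 𝓢 := by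
    have h3 : (⟨F, hF⟩ : C(Torus d, ℝ)) ∈ (Algebra.adjoin ℝ (oneCoord d)).topologicalClosure := by
      rw [adjoin_closure]
      trivial
    exact closure_minimal hadj hclosed h3
  exact hmem

end Pool.Agent.Helper65.LW
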