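import Mathlib
import Pool.Agent.Helper65.LW.Tensor

set_option autoImplicit false

/-!
Bounds for the mixed class.
-/

namespace Pool.Agent.Helper65.LW

open MeasureTheory AddCircle
open Pool.Agent.Helper40.LinWidth
open scoped Real

/-- index set of the mixed difference -/
def idx (d l : ℕ) (e : Finset (Fin d)) : Finset (Fin d → ℕ) :=
  Fintype.piFinset (fun j : Fin d => if j ∈ e then Finset.range (l + 1) else {0})

/-- the mixed difference with steps in the torus -/
noncomputable def md {d : ℕ} (l : ℕ) (e : Finset (Fin d)) (t : Torus d) (F : Torus d → ℝ)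
    (x : Torus d) : ℝ :=
  ∑ k ∈ idx d l e, (∏ j ∈ e, ((-1 : ℝ) ^ (l - k j) * (l.choose (k j) : ℝ))) *
      F (fun j => x j + k j • t j)

/-- real functions with bounded mixed differences -/
def MH {d : ℕ} (l : ℕ) (r B : ℝ) (F : Torus d → ℝ) : Prop :=
  ∀ e : Finset (Fin d), e.Nonempty → ∀ (t : Fin d → ℝ) (x : Torus d),
    |mixedDiff l e t F x| ≤ B * ∏ j ∈ e, |t j| ^ r

lemma exists_rep (t : T1) : ∃ x : ℝ, (x : T1) = t ∧ |x| = ‖t‖ := by
  obtain ⟨x, hx, rfl⟩ : ∃ x : ℝ, x ∈ Set.Ioc (-π) (-π + 2 * π) ∧ (x : T1) = t := by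
    obtain ⟨y, hy⟩ := (AddCircle.equivIoc (2 * π) (-π)).symm.surjective t
    exact ⟨y.1, y.2, hy⟩
  refine ⟨x, rfl, ?_⟩
  symm
  rw [AddCircle.norm_coe_eq_abs_iff _ Real.two_pi_pos.ne', abs_of_pos Real.two_pi_pos]
  rw [abs_le]
  constructor <;> linarith [hx.1, hx.2]

lemma md_bound {d l : ℕ} {r B : ℝ} {F : Torus d → ℝ} (hF : MH l r B F) {e : Finset (Fin d)}
    (he : e.Nonempty) (t x : Torus d) : |md l e t F x| ≤ B * ∏ j ∈ e, ‖t j‖ ^ r := by
  choose ρ hρ1 hρ2 using exists_rep
  have h := hF e he (fun j => ρ (t j)) x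
  simp only [hρ2] at h
  have h2 : mixedDiff l e (fun j => ρ (t j)) F x = md l e t F x := by
    unfold mixedDiff md idx
    apply Finset.sum_congr rfl
    intro k _
    congr 1
    congr 1
    ext j
    congr 1
    rw [← nsmul_eq_mul, AddCircle.coe_nsmul, hρ1]
  rwa [h2] at h

/-- `K_{2^{s-1}} - K_{2^s}` -/
noncomputable def kd (l : ℕ) : ℕ → T1 → ℝ
  | 0 => fun _ => 1
  | s + 1 => fun t => KM l (2 ^ s) t - KM l (2 ^ (s + 1)) t

lemma continuous_kd (l s : ℕ) : Continuous (kd l s) := by
  cases s with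
  | zero => exact continuous_const
  | succ s => exact (continuous_KM _ _).sub (continuous_KM _ _)

lemma gm_eq (l k : ℕ) (hk : k ≤ l) : gm l k = (-1) ^ l * ((-1) ^ (l - k) * (l.choose k : ℝ)) := by
  rw [gm, ← mul_assoc, ← pow_add]
  congr 1
  have : l + (l - k) = k + 2 * (l - k) := by omega
  rw [this, pow_add, pow_mul]
  norm_num

/-- pointwise form of the dyadic block -/
lemma block_pointwise {d : ℕ} (l : ℕ) (s : Fin d → ℕ) (F : Torus d → ℝ) (t : Torus d) :
    ∑ k ∈ Fintype.piFinset (fun _ : Fin d => Finset.range (l + 1)),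
      (∏ j, wt l (s j) (k j) (t j)) * F (fun j => bp (s j) (t j) + k j • t j) =
    (∏ j ∈ Finset.univ.filter (fun j => s j ≠ 0), (-1) ^ l * kd l (s j) (t j)) *
      md l (Finset.univ.filter (fun j => s j ≠ 0)) t F (fun j => bp (s j) (t j)) := by
  classical
  set e : Finset (Fin d) := Finset.univ.filter (fun j => s j ≠ 0) with he
  have hmem : ∀ j, j ∈ e ↔ s j ≠ 0 := fun j => by simp [he]
  have hsub : idx d l e ⊆ Fintype.piFinset (fun _ : Fin d => Finset.range (l + 1)) := by
    apply Fintype.piFinset_subset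
    intro j
    split_ifs
    · exact subset_rfl
    · intro x hx
      rw [Finset.mem_singleton] at hx
      subst hx
      simp
  rw [← Finset.sum_subset hsub, md, Finset.mul_sum]
  · apply Finset.sum_congr rfl
    intro k hk
    rw [← mul_assoc]
    congr 1
    rw [← Finset.prod_mul_distrib, ← Finset.prod_subset (Finset.subset_univ e)]
    · apply Finset.prod_congr rfl
      intro j hj
      have hkj : k j ≤ l := by
        have := (Fintype.mem_piFinset.1 hk) j
        rw [if_pos hj, Finset.mem_range] at this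
        omega
      obtain ⟨s', hs'⟩ := Nat.exists_eq_succ_of_ne_zero ((hmem j).1 hj)
      rw [hs']
      show (KM l (2 ^ s') (t j) - KM l (2 ^ (s' + 1)) (t j)) * gm l (k j) =
        (-1) ^ l * (KM l (2 ^ s') (t j) - KM l (2 ^ (s' + 1)) (t j)) * _
      rw [gm_eq l _ hkj]
      ring
    · intro j _ hj
      have h0 : s j = 0 := by
        by_contra h
        exact hj ((hmem j).2 h)
      have hk0 : k j = 0 := by
        have := (Fintype.mem_piFinset.1 hk) j
        rw [if_neg hj, Finset.mem_singleton] at this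
        exact this
      rw [h0, hk0]
      simp [wt]
  · intro k _ hk
    have : ∃ j, j ∉ e ∧ k j ≠ 0 := by
      by_contra hcon
      push Not at hcon
      apply hk
      rw [idx, Fintype.mem_piFinset]
      intro j
      split_ifs with hj
      · rename_i hk'
        exact (Fintype.mem_piFinset.1 hk') j
      · rw [Finset.mem_singleton]
        exact hcon j hj
    obtain ⟨j, hj, hkj⟩ := this
    have h0 : s j = 0 := by
      by_contra h
      exact hj ((hmem j).2 h)
    rw [Finset.prod_eq_zero (Finset.mem_univ j), zero_mul]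
    rw [h0]
    simp [wt, hkj]

/-- constant for one dyadic block -/
noncomputable def C1 (l : ℕ) (r : ℝ) : ℝ := C0 l * (2 ^ r + 1)

lemma C1_ge_one (l : ℕ) {r : ℝ} (hr : 0 < r) : 1 ≤ C1 l r := by
  have h1 := C0_ge_one l
  have h2 : (0 : ℝ) < 2 ^ r := by positivity
  unfold C1
  nlinarith

lemma block_integral (l : ℕ) {r : ℝ} (hr : 0 < r) (hrl : r < l) (s : ℕ) (hs : s ≠ 0) :
    ∫ t, |kd l s t| * ‖t‖ ^ r ∂μ1 ≤ C1 l r * (2 : ℝ) ^ (-(r * s)) := by
  obtain ⟨s, rfl⟩ := Nat.exists_eq_succ_of_ne_zero hs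
  have hcn : Continuous fun t : T1 => ‖t‖ ^ r :=
    continuous_norm.rpow_const fun _ => Or.inr hr.le
  have e1 : (1 : ℕ) ≤ 2 ^ (s + 1) := Nat.one_le_two_pow
  have e2 : (1 : ℕ) ≤ 2 ^ s := Nat.one_le_two_pow
  have h1 : ∀ t : T1, |kd l (s + 1) t| * ‖t‖ ^ r ≤
      KM l (2 ^ s) t * ‖t‖ ^ r + KM l (2 ^ (s + 1)) t * ‖t‖ ^ r := by
    intro t
    rw [← add_mul]
    apply mul_le_mul_of_nonneg_right _ (Real.rpow_nonneg (norm_nonneg _) _)
    refine (abs_sub _ _).trans ?_
    rw [abs_of_nonneg (KM_nonneg l _ e2 t), abs_of_nonneg (KM_nonneg l _ e1 t)]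
  refine (integral_mono ?_ ?_ h1).trans ?_
  · exact integrable_of_continuous ((continuous_kd _ _).abs.mul hcn)
  · exact integrable_of_continuous (((continuous_KM _ _).mul hcn).add ((continuous_KM _ _).mul hcn))
  · have e3 : ∫ t, KM l (2 ^ s) t * ‖t‖ ^ r + KM l (2 ^ (s + 1)) t * ‖t‖ ^ r ∂μ1 =
        ∫ t, KM l (2 ^ s) t * ‖t‖ ^ r ∂μ1 + ∫ t, KM l (2 ^ (s + 1)) t * ‖t‖ ^ r ∂μ1 :=
      integral_add (integrable_of_continuous ((continuous_KM _ _).mul hcn))
        (integrable_of_continuous ((continuous_KM _ _).mul hcn))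
    rw [e3]
    have h2 := moment l _ e2 hr hrl
    have h3 := moment l _ e1 hr hrl
    have h4 : (((2 ^ s : ℕ) : ℝ)) ^ (-r) = 2 ^ r * (2 : ℝ) ^ (-(r * (s + 1))) := by
      rw [← Real.rpow_add (by norm_num)]
      push_cast
      rw [← Real.rpow_natCast, ← Real.rpow_mul (by norm_num)]
      congr 1
      ring
    have h5 : (((2 ^ (s + 1) : ℕ) : ℝ)) ^ (-r) = (2 : ℝ) ^ (-(r * (s + 1))) := by
      push_cast
      rw [← Real.rpow_natCast, ← Real.rpow_mul (by norm_num)]
      congr 1
      push_cast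
      ring
    rw [h4] at h2
    rw [h5] at h3
    unfold C1
    push_cast
    linarith

/-- bound for one dyadic block -/
theorem phi_bound {d l : ℕ} {r B : ℝ} (hr : 0 < r) (hrl : r < l) (hB : 0 ≤ B) {F : Torus d → ℝ}
    (hFc : Continuous F) (hF : MH l r B F) (s : Fin d → ℕ) (hs : ∃ j, s j ≠ 0) :
    |∫ v, (∏ j, qs l (s j) (v j)) * F v ∂(torusMeasure d)| ≤
      B * (C1 l r ^ d * (2 : ℝ) ^ (-(r * ∑ j, (s j : ℝ)))) := by
  classical
  have hl : 1 ≤ l := by
    by_contra h
    have : l = 0 := by omega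
    rw [this] at hrl
    simp at hrl
    linarith
  have hcn : Continuous fun t : T1 => ‖t‖ ^ r :=
    continuous_norm.rpow_const fun _ => Or.inr hr.le
  set e : Finset (Fin d) := Finset.univ.filter (fun j => s j ≠ 0) with he
  have hmem : ∀ j, j ∈ e ↔ s j ≠ 0 := fun j => by simp [he]
  have hene : e.Nonempty := by
    obtain ⟨j, hj⟩ := hs
    exact ⟨j, (hmem j).2 hj⟩
  have hcont : ∀ k : Fin d → ℕ, Continuous fun t : Torus d =>
      (∏ j, wt l (s j) (k j) (t j)) * F (fun j => bp (s j) (t j) + k j • t j) := by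
    intro k
    apply Continuous.mul
    · exact continuous_finsetProd _ fun j _ => (continuous_wt l (s j) (k j)).comp (continuous_apply j)
    · apply hFc.comp
      apply continuous_pi
      intro j
      exact ((continuous_bp (s j)).comp (continuous_apply j)).add
        ((continuous_nsmul (k j)).comp (continuous_apply j))
  rw [tensor (Finset.range (l + 1)) (fun j => qs l (s j)) (fun j => continuous_qs l _)
    (fun j k => wt l (s j) k) (fun j k => continuous_wt l _ _)
    (fun j k t => bp (s j) t + k • t)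
    (fun j k => (continuous_bp _).add (continuous_nsmul k))
    (fun j G hG => qs_identity l (s j) hl G hG) F hFc,
    ← integral_finsetSum _ fun k _ => integrable_of_continuous' (hcont k)]
  simp_rw [block_pointwise]
  have hpt : ∀ t : Torus d,
      |(∏ j ∈ e, (-1) ^ l * kd l (s j) (t j)) * md l e t F (fun j => bp (s j) (t j))| ≤
        B * ∏ j, (|kd l (s j) (t j)| * if s j ≠ 0 then ‖t j‖ ^ r else 1) := by
    intro t
    rw [abs_mul, Finset.abs_prod]
    have h1 : ∏ j ∈ e, |(-1) ^ l * kd l (s j) (t j)| = ∏ j ∈ e, |kd l (s j) (t j)| := by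
      apply Finset.prod_congr rfl
      intro j _
      rw [abs_mul, abs_pow, abs_neg, abs_one, one_pow, one_mul]
    have h2 : ∏ j, (|kd l (s j) (t j)| * if s j ≠ 0 then ‖t j‖ ^ r else 1) =
        (∏ j ∈ e, |kd l (s j) (t j)|) * ∏ j ∈ e, ‖t j‖ ^ r := by
      rw [← Finset.prod_mul_distrib, ← Finset.prod_subset (Finset.subset_univ e)]
      · apply Finset.prod_congr rfl
        intro j hj
        rw [if_pos ((hmem j).1 hj)]
      · intro j _ hj
        have h0 : s j = 0 := by
          by_contra h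
          exact hj ((hmem j).2 h)
        rw [h0]
        simp [kd]
    rw [h1, h2]
    have h3 := md_bound hF hene t (fun j => bp (s j) (t j))
    have h4 : 0 ≤ ∏ j ∈ e, |kd l (s j) (t j)| := Finset.prod_nonneg fun j _ => abs_nonneg _
    calc (∏ j ∈ e, |kd l (s j) (t j)|) * |md l e t F fun j => bp (s j) (t j)|
        ≤ (∏ j ∈ e, |kd l (s j) (t j)|) * (B * ∏ j ∈ e, ‖t j‖ ^ r) :=
          mul_le_mul_of_nonneg_left h3 h4
      _ = _ := by ring
  have hci : ∀ j, Continuous fun t : T1 => |kd l (s j) t| * if s j ≠ 0 then ‖t‖ ^ r else 1 := by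
    intro j
    split_ifs
    · exact (continuous_kd _ _).abs.mul hcn
    · exact (continuous_kd _ _).abs.mul continuous_const
  have hint : Integrable (fun t : Torus d =>
      B * ∏ j, (|kd l (s j) (t j)| * if s j ≠ 0 then ‖t j‖ ^ r else 1)) (torusMeasure d) := by
    apply integrable_of_continuous'
    exact continuous_const.mul (continuous_finsetProd _ fun j _ => (hci j).comp (continuous_apply j))
  rw [← Real.norm_eq_abs]
  refine (norm_integral_le_of_norm_le hint (Filter.Eventually.of_forall fun t => by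
    rw [Real.norm_eq_abs]; exact hpt t)).trans ?_
  rw [integral_const_mul]
  apply mul_le_mul_of_nonneg_left _ hB
  have h5 := integral_fintype_prod_eq_prod (μ := fun _ : Fin d => μ1)
    (fun (j : Fin d) (t : T1) => |kd l (s j) t| * if s j ≠ 0 then ‖t‖ ^ r else 1)
  refine (le_of_eq h5).trans ?_
  have h6 : ∀ j, ∫ t, (|kd l (s j) t| * if s j ≠ 0 then ‖t‖ ^ r else 1) ∂μ1 ≤
      C1 l r * (2 : ℝ) ^ (-(r * (s j : ℝ))) := by
    intro j
    by_cases hj : s j = 0
    · simp only [hj, ne_eq, not_true_eq_false, if_false, kd]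
      simp
      exact C1_ge_one l hr
    · simp only [ne_eq, hj, not_false_eq_true, if_true]
      exact block_integral l hr hrl _ hj
  calc ∏ j, ∫ t, (|kd l (s j) t| * if s j ≠ 0 then ‖t‖ ^ r else 1) ∂μ1
      ≤ ∏ j, (C1 l r * (2 : ℝ) ^ (-(r * (s j : ℝ)))) := by
        apply Finset.prod_le_prod
        · intro j _
          apply integral_nonneg
          intro t
          apply mul_nonneg (abs_nonneg _)
          split_ifs
          · exact Real.rpow_nonneg (norm_nonneg _) _
          · exact zero_le_one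
        · intro j _
          exact h6 j
    _ = C1 l r ^ d * (2 : ℝ) ^ (-(r * ∑ j, (s j : ℝ))) := by
        rw [Finset.prod_mul_distrib, Finset.prod_const, Finset.card_univ, Fintype.card_fin,
          Finset.mul_sum, ← Finset.sum_neg_distrib, Real.rpow_sum_of_pos (by norm_num)]

end Pool.Agent.Helper65.LW
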