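import Mathlib
import Pool.Agent.Helper65.LW.Mixed

set_option autoImplicit false

/-!
Approximation at a point by the hyperbolic cross functional.
-/

namespace Pool.Agent.Helper65.LW

open MeasureTheory AddCircle Filter Topology
open Pool.Agent.Helper40.LinWidth
open scoped Real

/-- expansion of the product of `δ - γ` -/
lemma expand_pointwise {d : ℕ} (l : ℕ) (F : Torus d → ℝ) (t : Torus d) :
    ∑ k ∈ Fintype.piFinset (fun _ : Fin d => Finset.range (l + 1)),
      (∏ j, ((if k j = 0 then (1 : ℝ) else 0) - gm l (k j))) * F (fun j => k j • t j) =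
    ∑ e ∈ (Finset.univ : Finset (Fin d)).powerset,
      (∏ _j ∈ e, (-(-1 : ℝ) ^ l)) * md l e t F (fun _ => 0) := by
  classical
  have h1 : ∀ k : Fin d → ℕ, ∏ j, ((if k j = 0 then (1 : ℝ) else 0) - gm l (k j)) =
      ∑ e ∈ (Finset.univ : Finset (Fin d)).powerset, (∏ j ∈ e, -gm l (k j)) *
        ∏ j ∈ Finset.univ \ e, (if k j = 0 then (1 : ℝ) else 0) := by
    intro k
    rw [← Finset.prod_add]
    apply Finset.prod_congr rfl
    intro j _
    ring
  simp_rw [h1, Finset.sum_mul]
  rw [Finset.sum_comm]
  apply Finset.sum_congr rfl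
  intro e _
  have hsub : idx d l e ⊆ Fintype.piFinset (fun _ : Fin d => Finset.range (l + 1)) := by
    apply Fintype.piFinset_subset
    intro j
    split_ifs
    · exact subset_rfl
    · intro x hx
      rw [Finset.mem_singleton] at hx
      subst hx
      simp
  rw [← Finset.sum_subset hsub, md, Finset.mul_sum]
  · apply Finset.sum_congr rfl
    intro k hk
    have h2 : ∏ j ∈ Finset.univ \ e, (if k j = 0 then (1 : ℝ) else 0) = 1 := by
      apply Finset.prod_eq_one
      intro j hj
      rw [Finset.mem_sdiff] at hj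
      have := (Fintype.mem_piFinset.1 hk) j
      rw [if_neg hj.2, Finset.mem_singleton] at this
      rw [if_pos this]
    have h3 : ∏ j ∈ e, -gm l (k j) =
        (∏ _j ∈ e, (-(-1 : ℝ) ^ l)) * ∏ j ∈ e, ((-1) ^ (l - k j) * (l.choose (k j) : ℝ)) := by
      rw [← Finset.prod_mul_distrib]
      apply Finset.prod_congr rfl
      intro j hj
      have hkj : k j ≤ l := by
        have := (Fintype.mem_piFinset.1 hk) j
        rw [if_pos hj, Finset.mem_range] at this
        omega
      rw [gm_eq l _ hkj]
      ring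
    rw [h2, h3, mul_one, mul_assoc]
    congr 3
    ext j
    rw [zero_add]
  · intro k _ hk
    have : ∃ j, j ∉ e ∧ k j ≠ 0 := by
      by_contra hcon
      push Not at hcon
      apply hk
      rw [idx, Fintype.mem_piFinset]
      intro j
      split_ifs with hj
      · rename_i hk'
        exact (Fintype.mem_piFinset.1 hk') j
      · rw [Finset.mem_singleton]
        exact hcon j hj
    obtain ⟨j, hj, hkj⟩ := this
    rw [Finset.prod_eq_zero (s := Finset.univ \ e)
      (Finset.mem_sdiff.2 ⟨Finset.mem_univ j, hj⟩) (if_neg hkj), mul_zero, zero_mul]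

lemma md_empty {d : ℕ} (l : ℕ) (F : Torus d → ℝ) (t x : Torus d) : md l ∅ t F x = F x := by
  classical
  have : idx d l ∅ = {fun _ => 0} := by
    unfold idx
    simp only [Finset.notMem_empty, if_false]
    exact Fintype.piFinset_singleton _
  rw [md, this, Finset.sum_singleton]
  simp

/-- remainder -/
noncomputable def Rem (d l : ℕ) (r : ℝ) (M : ℕ) : ℝ :=
  ∑ e ∈ ((Finset.univ : Finset (Fin d)).powerset).erase ∅, ∏ _j ∈ e, (C0 l * (M : ℝ) ^ (-r))

theorem conv_bound {d l : ℕ} {r B : ℝ} (hr : 0 < r) (hrl : r < l) (hB : 0 ≤ B) {F : Torus d → ℝ}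
    (hFc : Continuous F) (hF : MH l r B F) (M : ℕ) (hM : 1 ≤ M) :
    |F (fun _ => 0) - ∫ v, (∏ j, qM l M (v j)) * F v ∂(torusMeasure d)| ≤ B * Rem d l r M := by
  classical
  have hcn : Continuous fun t : T1 => ‖t‖ ^ r :=
    continuous_norm.rpow_const fun _ => Or.inr hr.le
  have hKprod : Continuous fun t : Torus d => ∏ j, KM l M (t j) :=
    continuous_finsetProd _ fun j _ => (continuous_KM l M).comp (continuous_apply j)
  have hcont : ∀ k : Fin d → ℕ, Continuous fun t : Torus d =>
      (∏ j, KM l M (t j) * ((if k j = 0 then 1 else 0) - gm l (k j))) *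
        F (fun j => k j • t j) := by
    intro k
    apply Continuous.mul
    · exact continuous_finsetProd _ fun j _ =>
        ((continuous_KM l M).comp (continuous_apply j)).mul continuous_const
    · apply hFc.comp
      apply continuous_pi
      intro j
      exact (continuous_nsmul (k j)).comp (continuous_apply j)
  rw [tensor (Finset.range (l + 1)) (fun _ => qM l M) (fun j => continuous_qM l M)
    (fun j k t => KM l M t * ((if k = 0 then 1 else 0) - gm l k))
    (fun j k => (continuous_KM l M).mul continuous_const)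
    (fun j k t => k • t) (fun j k => continuous_nsmul k)
    (fun j G hG => qM_identity l M hM G hG) F hFc,
    ← integral_finsetSum _ fun k _ => integrable_of_continuous' (hcont k)]
  have h1 : ∀ t : Torus d, ∑ k ∈ Fintype.piFinset (fun _ : Fin d => Finset.range (l + 1)),
      (∏ j, KM l M (t j) * ((if k j = 0 then 1 else 0) - gm l (k j))) * F (fun j => k j • t j) =
      (∏ j, KM l M (t j)) * ∑ e ∈ (Finset.univ : Finset (Fin d)).powerset,
        (∏ _j ∈ e, (-(-1 : ℝ) ^ l)) * md l e t F (fun _ => 0) := by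
    intro t
    rw [← expand_pointwise, Finset.mul_sum]
    apply Finset.sum_congr rfl
    intro k _
    rw [Finset.prod_mul_distrib, mul_assoc]
  have hK1 : ∫ t : Torus d, ∏ j, KM l M (t j) ∂(torusMeasure d) = 1 := by
    have := integral_fintype_prod_eq_prod (μ := fun _ : Fin d => μ1)
      (fun (_ : Fin d) (t : T1) => KM l M t)
    refine this.trans ?_
    simp only [integral_KM l M hM, Finset.prod_const_one]
  have hF0 : F (fun _ => 0) = ∫ t : Torus d, (∏ j, KM l M (t j)) * F (fun _ => 0)
      ∂(torusMeasure d) := by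
    rw [integral_mul_const, hK1, one_mul]
  have hcont2 : Continuous fun t : Torus d => ∑ k ∈ Fintype.piFinset
      (fun _ : Fin d => Finset.range (l + 1)),
      (∏ j, KM l M (t j) * ((if k j = 0 then 1 else 0) - gm l (k j))) * F (fun j => k j • t j) :=
    continuous_finsetSum _ fun k _ => hcont k
  have h2 : F (fun _ => 0) - ∫ t, ∑ k ∈ Fintype.piFinset (fun _ : Fin d => Finset.range (l + 1)),
      (∏ j, KM l M (t j) * ((if k j = 0 then 1 else 0) - gm l (k j))) * F (fun j => k j • t j)
      ∂(torusMeasure d) =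
      ∫ t, (∏ j, KM l M (t j)) * F (fun _ => 0) -
        ∑ k ∈ Fintype.piFinset (fun _ : Fin d => Finset.range (l + 1)),
      (∏ j, KM l M (t j) * ((if k j = 0 then 1 else 0) - gm l (k j))) * F (fun j => k j • t j)
      ∂(torusMeasure d) := by
    have hcK : Continuous fun t : Torus d => (∏ j, KM l M (t j)) * F (fun _ => 0) :=
      hKprod.mul continuous_const
    have e3 := integral_sub (μ := torusMeasure d)
      (integrable_of_continuous' hcK) (integrable_of_continuous' hcont2)
    rw [← hF0] at e3
    exact e3.symm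
  rw [h2]
  have h3 : ∀ t : Torus d, |(∏ j, KM l M (t j)) * F (fun _ => 0) -
        ∑ k ∈ Fintype.piFinset (fun _ : Fin d => Finset.range (l + 1)),
      (∏ j, KM l M (t j) * ((if k j = 0 then 1 else 0) - gm l (k j))) * F (fun j => k j • t j)| ≤
      B * ∑ e ∈ ((Finset.univ : Finset (Fin d)).powerset).erase ∅,
        ∏ j, (KM l M (t j) * if j ∈ e then ‖t j‖ ^ r else 1) := by
    intro t
    have hK0 : 0 ≤ ∏ j, KM l M (t j) := Finset.prod_nonneg fun j _ => KM_nonneg l M hM _
    rw [h1, ← mul_sub, ← Finset.add_sum_erase _ _ (Finset.empty_mem_powerset Finset.univ),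
      md_empty, Finset.prod_empty, one_mul, sub_add_cancel_left, mul_neg, abs_neg, abs_mul,
      abs_of_nonneg hK0, Finset.mul_sum]
    refine (mul_le_mul_of_nonneg_left (Finset.abs_sum_le_sum_abs _ _) hK0).trans ?_
    rw [Finset.mul_sum]
    apply Finset.sum_le_sum
    intro e he
    rw [Finset.mem_erase] at he
    have hene : e.Nonempty := Finset.nonempty_iff_ne_empty.2 he.1
    have h4 := md_bound hF hene t (fun _ => 0)
    rw [abs_mul, Finset.abs_prod]
    have h5 : ∏ _j ∈ e, |(-(-1 : ℝ) ^ l)| = 1 := by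
      apply Finset.prod_eq_one
      intro j _
      rw [abs_neg, abs_pow, abs_neg, abs_one, one_pow]
    have h6 : ∏ j, (KM l M (t j) * if j ∈ e then ‖t j‖ ^ r else 1) =
        (∏ j, KM l M (t j)) * ∏ j ∈ e, ‖t j‖ ^ r := by
      rw [Finset.prod_mul_distrib]
      congr 1
      rw [Finset.prod_ite_mem, Finset.univ_inter]
    rw [h5, one_mul, h6]
    calc (∏ j, KM l M (t j)) * |md l e t F fun _ => 0|
        ≤ (∏ j, KM l M (t j)) * (B * ∏ j ∈ e, ‖t j‖ ^ r) := mul_le_mul_of_nonneg_left h4 hK0
      _ = _ := by ring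
  have hci : ∀ (e : Finset (Fin d)) (j : Fin d),
      Continuous fun t : T1 => KM l M t * if j ∈ e then ‖t‖ ^ r else 1 := by
    intro e j
    split_ifs
    · exact (continuous_KM _ _).mul hcn
    · exact (continuous_KM _ _).mul continuous_const
  have hce : ∀ e : Finset (Fin d), Continuous fun t : Torus d =>
      ∏ j, (KM l M (t j) * if j ∈ e then ‖t j‖ ^ r else 1) := fun e =>
    continuous_finsetProd _ fun j _ => (hci e j).comp (continuous_apply j)
  have hint : Integrable (fun t : Torus d =>
      B * ∑ e ∈ ((Finset.univ : Finset (Fin d)).powerset).erase ∅,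
        ∏ j, (KM l M (t j) * if j ∈ e then ‖t j‖ ^ r else 1)) (torusMeasure d) :=
    integrable_of_continuous' (continuous_const.mul (continuous_finsetSum _ fun e _ => hce e))
  rw [← Real.norm_eq_abs]
  refine (norm_integral_le_of_norm_le hint (Filter.Eventually.of_forall fun t => by
    rw [Real.norm_eq_abs]; exact h3 t)).trans ?_
  rw [integral_const_mul]
  apply mul_le_mul_of_nonneg_left _ hB
  rw [integral_finsetSum _ fun e _ => integrable_of_continuous' (hce e)]
  unfold Rem
  apply Finset.sum_le_sum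
  intro e _
  have h7 := integral_fintype_prod_eq_prod (μ := fun _ : Fin d => μ1)
    (fun (j : Fin d) (t : T1) => KM l M t * if j ∈ e then ‖t‖ ^ r else 1)
  refine (le_of_eq h7).trans ?_
  have h8 : ∏ j : Fin d, (∫ t, (KM l M t * if j ∈ e then ‖t‖ ^ r else 1) ∂μ1) =
      ∏ _j ∈ e, ∫ t, KM l M t * ‖t‖ ^ r ∂μ1 := by
    rw [← Finset.prod_subset (Finset.subset_univ e)]
    · apply Finset.prod_congr rfl
      intro j hj
      simp only [if_pos hj]
    · intro j _ hj
      simp only [if_neg hj, mul_one]
      exact integral_KM l M hM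
  rw [h8]
  apply Finset.prod_le_prod
  · intro j _
    apply integral_nonneg
    intro t
    exact mul_nonneg (KM_nonneg l M hM t) (Real.rpow_nonneg (norm_nonneg _) _)
  · intro j _
    exact moment l M hM hr hrl

lemma tendsto_Rem (d l : ℕ) {r : ℝ} (hr : 0 < r) :
    Tendsto (fun N : ℕ => Rem d l r (2 ^ N)) atTop (𝓝 0) := by
  have h1 : Tendsto (fun N : ℕ => C0 l * (((2 ^ N : ℕ) : ℕ) : ℝ) ^ (-r)) atTop (𝓝 0) := by
    have h2 : Tendsto (fun N : ℕ => ((2 ^ N : ℕ) : ℝ)) atTop atTop := by
      push_cast
      exact tendsto_pow_atTop_atTop_of_one_lt (by norm_num)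
    have h3 := (tendsto_rpow_neg_atTop hr).comp h2
    simpa using h3.const_mul (C0 l)
  have h4 : (0 : ℝ) = ∑ e ∈ ((Finset.univ : Finset (Fin d)).powerset).erase ∅,
      ∏ _j ∈ e, (0 : ℝ) := by
    symm
    apply Finset.sum_eq_zero
    intro e he
    rw [Finset.mem_erase] at he
    obtain ⟨j, hj⟩ := Finset.nonempty_iff_ne_empty.2 he.1
    exact Finset.prod_eq_zero hj rfl
  rw [h4]
  unfold Rem
  exact tendsto_finsetSum _ fun e _ => tendsto_finsetProd _ fun j _ => h1

end Pool.Agent.Helper65.LW
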