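import Mathlib
import Pool.Agent.Helper65.LW.Approx

set_option autoImplicit false

/-!
The hyperbolic cross kernel and the error bound at a point.
-/

namespace Pool.Agent.Helper65.LW

open MeasureTheory AddCircle Filter Topology
open Pool.Agent.Helper40.LinWidth
open scoped Real

/-- hyperbolic cross index set -/
def HC (d n : ℕ) : Finset (Fin d → ℕ) :=
  (Fintype.piFinset fun _ : Fin d => Finset.range (n + 1)).filter (fun s => ∑ j, s j ≤ n)

lemma mem_HC {d n : ℕ} {s : Fin d → ℕ} : s ∈ HC d n ↔ ∑ j, s j ≤ n := by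
  unfold HC
  rw [Finset.mem_filter, Fintype.mem_piFinset]
  constructor
  · exact fun h => h.2
  · intro h
    refine ⟨fun j => ?_, h⟩
    rw [Finset.mem_range]
    have := Finset.single_le_sum (f := s) (fun _ _ => Nat.zero_le _) (Finset.mem_univ j)
    omega

/-- the hyperbolic cross kernel -/
noncomputable def Qn (d l n : ℕ) (v : Torus d) : ℝ := ∑ s ∈ HC d n, ∏ j, qs l (s j) (v j)

lemma continuous_Qs (d l : ℕ) (s : Fin d → ℕ) :
    Continuous fun v : Torus d => ∏ j, qs l (s j) (v j) :=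
  continuous_finsetProd _ fun j _ => (continuous_qs l (s j)).comp (continuous_apply j)

lemma continuous_Qn (d l n : ℕ) : Continuous (Qn d l n) :=
  continuous_finsetSum _ fun s _ => continuous_Qs d l s

lemma card_lev (d m : ℕ) (T : Finset (Fin (d + 1) → ℕ)) (hT : ∀ s ∈ T, ∑ j, s j = m) :
    T.card ≤ (m + 1) ^ d := by
  have h : T.card ≤ (Fintype.piFinset fun _ : Fin d => Finset.range (m + 1)).card := by
    apply Finset.card_le_card_of_injOn (fun s => Fin.tail s)
    · intro s hs
      rw [Finset.mem_coe, Fintype.mem_piFinset]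
      intro j
      rw [Finset.mem_range]
      have h1 := hT s hs
      have h2 := Finset.single_le_sum (f := s) (fun _ _ => Nat.zero_le _) (Finset.mem_univ j.succ)
      show s j.succ < m + 1
      omega
    · intro s hs s' hs' hss
      ext j
      have h1 := hT s hs
      have h2 := hT s' hs'
      rw [Fin.sum_univ_succ] at h1 h2
      have h3 : ∑ i : Fin d, s i.succ = ∑ i : Fin d, s' i.succ :=
        Finset.sum_congr rfl fun i _ => congrFun hss i
      refine Fin.cases ?_ (fun i => congrFun hss i) j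
      omega
  rwa [Fintype.card_piFinset_const, Finset.card_range] at h

lemma summable_aux (d : ℕ) {ρ : ℝ} (h0 : 0 < ρ) (h1 : ρ < 1) :
    Summable fun i : ℕ => ((i : ℝ) + 1) ^ d * ρ ^ i := by
  have h2 : Summable fun n : ℕ => (n : ℝ) ^ d * ρ ^ n :=
    summable_pow_mul_geometric_of_norm_lt_one d (by rw [Real.norm_eq_abs, abs_of_pos h0]; exact h1)
  have h3 := ((summable_nat_add_iff 1).2 h2).mul_right ρ⁻¹
  refine h3.congr fun i => ?_
  rw [pow_succ]
  push_cast
  field_simp

lemma tail_sum (d n : ℕ) {ρ : ℝ} (h0 : 0 < ρ) (h1 : ρ < 1) (T : Finset (Fin (d + 1) → ℕ))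
    (hT : ∀ s ∈ T, n ≤ ∑ j, s j) :
    ∑ s ∈ T, ρ ^ (∑ j, s j) ≤
      (∑' i : ℕ, ((i : ℝ) + 1) ^ d * ρ ^ i) * (((n : ℝ) + 1) ^ d * ρ ^ n) := by
  classical
  have hsum := summable_aux d h0 h1
  rw [← Finset.sum_fiberwise_of_maps_to
    (g := fun s : Fin (d + 1) → ℕ => ∑ j, s j - n)
    (t := T.image (fun s : Fin (d + 1) → ℕ => ∑ j, s j - n))
    (fun s hs => Finset.mem_image_of_mem _ hs) _]
  refine (Finset.sum_le_sum (g := fun i : ℕ => (((i : ℝ) + 1) ^ d * ρ ^ i) *
    (((n : ℝ) + 1) ^ d * ρ ^ n)) ?_).trans ?_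
  · intro i _
    have h2 : ∀ s ∈ T.filter (fun s => ∑ j, s j - n = i), ρ ^ (∑ j, s j) = ρ ^ (n + i) := by
      intro s hs
      rw [Finset.mem_filter] at hs
      have := hT s hs.1
      congr 1
      omega
    rw [Finset.sum_congr rfl h2, Finset.sum_const, nsmul_eq_mul]
    have h3 : (T.filter (fun s => ∑ j, s j - n = i)).card ≤ (n + i + 1) ^ d := by
      apply card_lev
      intro s hs
      rw [Finset.mem_filter] at hs
      have := hT s hs.1
      omega
    have h4 : ((T.filter (fun s => ∑ j, s j - n = i)).card : ℝ) ≤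
        (((i : ℝ) + 1) * ((n : ℝ) + 1)) ^ d := by
      have h5 : ((T.filter (fun s => ∑ j, s j - n = i)).card : ℝ) ≤ ((n : ℝ) + i + 1) ^ d := by
        exact_mod_cast h3
      refine h5.trans (pow_le_pow_left₀ (by positivity) ?_ d)
      have : (0 : ℝ) ≤ (n : ℝ) * i := by positivity
      nlinarith
    calc ((T.filter (fun s => ∑ j, s j - n = i)).card : ℝ) * ρ ^ (n + i)
        ≤ (((i : ℝ) + 1) * ((n : ℝ) + 1)) ^ d * ρ ^ (n + i) :=
          mul_le_mul_of_nonneg_right h4 (by positivity)
      _ = _ := by rw [mul_pow, pow_add]; ring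
  · rw [← Finset.sum_mul]
    apply mul_le_mul_of_nonneg_right _ (by positivity)
    exact hsum.sum_le_tsum _ fun i _ => by positivity

theorem func_bound (d : ℕ) {l : ℕ} {r : ℝ} (hr : 0 < r) (hrl : r < l) :
    ∃ C : ℝ, 0 ≤ C ∧ ∀ (n : ℕ) (B : ℝ) (_ : 0 ≤ B) (F : Torus (d + 1) → ℝ) (_ : Continuous F)
      (_ : MH l r B F),
      |F (fun _ => 0) - ∫ v, Qn (d + 1) l n v * F v ∂(torusMeasure (d + 1))| ≤
        B * (C * (((n : ℝ) + 1) ^ d * (2 : ℝ) ^ (-(r * n)))) := by
  classical
  set ρ : ℝ := (2 : ℝ) ^ (-r) with hρ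
  have hρ0 : 0 < ρ := by positivity
  have hρ1 : ρ < 1 := Real.rpow_lt_one_of_one_lt_of_neg (by norm_num) (by linarith)
  have hC1 : 0 ≤ C1 l r := le_trans zero_le_one (C1_ge_one l hr)
  have hρn : ∀ n : ℕ, (2 : ℝ) ^ (-(r * n)) = ρ ^ n := by
    intro n
    rw [hρ, ← Real.rpow_natCast, ← Real.rpow_mul (by norm_num)]
    congr 1
    ring
  refine ⟨C1 l r ^ (d + 1) * ∑' i : ℕ, ((i : ℝ) + 1) ^ d * ρ ^ i,
    mul_nonneg (pow_nonneg hC1 _) (tsum_nonneg fun i => by positivity), ?_⟩
  intro n B hB F hFc hF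
  set Y := ∫ v, Qn (d + 1) l n v * F v ∂(torusMeasure (d + 1)) with hY
  set bound : ℝ := B * (C1 l r ^ (d + 1) * (∑' i : ℕ, ((i : ℝ) + 1) ^ d * ρ ^ i) *
    (((n : ℝ) + 1) ^ d * (2 : ℝ) ^ (-(r * n)))) with hbound
  have key : ∀ N : ℕ, n ≤ N → |F (fun _ => 0) - Y| ≤ B * Rem (d + 1) l r (2 ^ N) + bound := by
    intro N hN
    have h1 := conv_bound hr hrl hB hFc hF (2 ^ N) Nat.one_le_two_pow
    set X := ∫ v, (∏ j, qM l (2 ^ N) (v j)) * F v ∂(torusMeasure (d + 1)) with hX
    have hint : ∀ s : Fin (d + 1) → ℕ, Integrable (fun v : Torus (d + 1) =>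
        (∏ j, qs l (s j) (v j)) * F v) (torusMeasure (d + 1)) := fun s =>
      integrable_of_continuous' ((continuous_Qs _ l s).mul hFc)
    have h2 : X = ∑ s ∈ Fintype.piFinset (fun _ : Fin (d + 1) => Finset.range (N + 1)),
        ∫ v, (∏ j, qs l (s j) (v j)) * F v ∂(torusMeasure (d + 1)) := by
      rw [← integral_finsetSum _ fun s _ => hint s]
      apply integral_congr_ae
      refine Filter.Eventually.of_forall fun v => ?_
      simp only
      have hp := Finset.prod_univ_sum (fun _ : Fin (d + 1) => Finset.range (N + 1))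
        (fun j m => qs l m (v j))
      simp only [sum_qs] at hp
      rw [← Finset.sum_mul, ← hp]
    have h3 : Y = ∑ s ∈ HC (d + 1) n,
        ∫ v, (∏ j, qs l (s j) (v j)) * F v ∂(torusMeasure (d + 1)) := by
      rw [← integral_finsetSum _ fun s _ => hint s]
      apply integral_congr_ae
      refine Filter.Eventually.of_forall fun v => ?_
      simp only
      rw [Qn, ← Finset.sum_mul]
    have hsub : HC (d + 1) n ⊆ Fintype.piFinset (fun _ : Fin (d + 1) => Finset.range (N + 1)) := by
      intro s hs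
      rw [HC, Finset.mem_filter, Fintype.mem_piFinset] at hs
      rw [Fintype.mem_piFinset]
      intro j
      have := hs.1 j
      rw [Finset.mem_range] at this ⊢
      omega
    have h4 : X - Y = ∑ s ∈ Fintype.piFinset (fun _ : Fin (d + 1) => Finset.range (N + 1)) \
        HC (d + 1) n, ∫ v, (∏ j, qs l (s j) (v j)) * F v ∂(torusMeasure (d + 1)) := by
      rw [h2, h3, ← Finset.sum_sdiff hsub]
      ring
    have h5 : |X - Y| ≤ bound := by
      rw [h4]
      refine (Finset.abs_sum_le_sum_abs _ _).trans ?_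
      have h6 : ∀ s ∈ Fintype.piFinset (fun _ : Fin (d + 1) => Finset.range (N + 1)) \
          HC (d + 1) n, |∫ v, (∏ j, qs l (s j) (v j)) * F v ∂(torusMeasure (d + 1))| ≤
          (B * C1 l r ^ (d + 1)) * ρ ^ (∑ j, s j) := by
        intro s hs
        rw [Finset.mem_sdiff, mem_HC] at hs
        have hne : ∃ j, s j ≠ 0 := by
          by_contra hcon
          push Not at hcon
          apply hs.2
          rw [Finset.sum_eq_zero fun j _ => hcon j]
          omega
        refine (phi_bound hr hrl hB hFc hF s hne).trans (le_of_eq ?_)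
        rw [← hρn]
        push_cast
        ring
      refine (Finset.sum_le_sum h6).trans ?_
      rw [← Finset.mul_sum]
      have h7 := tail_sum d n hρ0 hρ1
        (Fintype.piFinset (fun _ : Fin (d + 1) => Finset.range (N + 1)) \ HC (d + 1) n) (by
          intro s hs
          rw [Finset.mem_sdiff, mem_HC] at hs
          omega)
      refine (mul_le_mul_of_nonneg_left h7 (mul_nonneg hB (pow_nonneg hC1 _))).trans
        (le_of_eq ?_)
      rw [hbound, hρn]
      ring
    calc |F (fun _ => 0) - Y| = |(F (fun _ => 0) - X) + (X - Y)| := by ring_nf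
      _ ≤ |F (fun _ => 0) - X| + |X - Y| := abs_add_le _ _
      _ ≤ _ := add_le_add h1 h5
  have hlim : Tendsto (fun N : ℕ => B * Rem (d + 1) l r (2 ^ N) + bound) atTop
      (𝓝 (B * 0 + bound)) := ((tendsto_Rem (d + 1) l hr).const_mul B).add_const bound
  have := ge_of_tendsto hlim (Filter.eventually_atTop.2 ⟨n, key⟩)
  rw [mul_zero, zero_add] at this
  exact this

end Pool.Agent.Helper65.LW
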