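import Mathlib
import Pool.Agent.Helper65.LW.Hyper

set_option autoImplicit false

/-!
Duality: a bound of pairings with continuous functions gives a bound almost everywhere.
-/

namespace Pool.Agent.Helper65.LW

open MeasureTheory AddCircle Filter Topology
open Pool.Agent.Helper40.LinWidth
open scoped Real ENNReal

variable {𝕜 : Type*} [RCLike 𝕜] {d : ℕ}

instance negInv (d : ℕ) : (torusMeasure d).IsNegInvariant := by
  have : (torusMeasure d).Regular := inferInstance
  exact Measure.IsAddHaarMeasure.isNegInvariant_of_regular _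

lemma ae_le_norm (f : LInfty 𝕜 d) : ∀ᵐ x ∂(torusMeasure d), ‖f x‖ ≤ ‖f‖ := by
  have h := enorm_ae_le_eLpNormEssSup f (torusMeasure d)
  have h2 : eLpNormEssSup f (torusMeasure d) ≠ ∞ := by
    have := Lp.eLpNorm_ne_top f
    rwa [eLpNorm_exponent_top] at this
  filter_upwards [h] with x hx
  rw [Lp.norm_def, eLpNorm_exponent_top]
  have := ENNReal.toReal_mono h2 hx
  simpa using this

lemma integrable_LInfty (f : LInfty 𝕜 d) : Integrable f (torusMeasure d) :=
  (Lp.memLp f).integrable le_top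

lemma integrable_cont_mul {χ : Torus d → 𝕜} (hχ : Continuous χ) {f : Torus d → 𝕜}
    (hf : Integrable f (torusMeasure d)) :
    Integrable (fun x => χ x * f x) (torusMeasure d) := by
  obtain ⟨C, hC⟩ := (isCompact_univ (X := Torus d)).exists_bound_of_continuousOn hχ.continuousOn
  refine (hf.norm.const_mul C).mono' (hχ.aestronglyMeasurable.mul hf.aestronglyMeasurable)
    (Filter.Eventually.of_forall fun x => ?_)
  rw [norm_mul]
  exact mul_le_mul_of_nonneg_right (hC x (Set.mem_univ x)) (norm_nonneg _)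

theorem ae_bound_of_dual {g : Torus d → 𝕜} (hg : Integrable g (torusMeasure d)) {M K : ℝ}
    (hM : ∀ᵐ x ∂(torusMeasure d), ‖g x‖ ≤ M) (hK : 0 ≤ K)
    (h : ∀ φ : Torus d → 𝕜, Continuous φ →
      ‖∫ x, g x * φ x ∂(torusMeasure d)‖ ≤ K * ∫ x, ‖φ x‖ ∂(torusMeasure d)) :
    ∀ᵐ x ∂(torusMeasure d), ‖g x‖ ≤ K := by
  classical
  set μ := torusMeasure d with hμ
  have hM0 : 0 ≤ M := by
    obtain ⟨x, hx⟩ := hM.exists
    exact (norm_nonneg _).trans hx
  apply ae_le_of_forall_setIntegral_le hg.norm (integrable_const K)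
  intro s hs _
  rw [setIntegral_const, smul_eq_mul]
  -- the sign function
  set sg : Torus d → 𝕜 := fun x => (starRingEnd 𝕜) (g x) * ((‖g x‖⁻¹ : ℝ) : 𝕜) with hsg
  have hsgm : AEStronglyMeasurable sg μ := by
    apply AEStronglyMeasurable.mul
    · exact RCLike.continuous_conj.comp_aestronglyMeasurable hg.aestronglyMeasurable
    · exact RCLike.continuous_ofReal.comp_aestronglyMeasurable
        (hg.aestronglyMeasurable.norm.aemeasurable.inv.aestronglyMeasurable)
  have hsg1 : ∀ x, ‖sg x‖ ≤ 1 := by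
    intro x
    simp only [hsg]
    rw [norm_mul, RCLike.norm_conj, RCLike.norm_ofReal, abs_inv, abs_norm]
    by_cases h0 : ‖g x‖ = 0
    · rw [h0]; simp
    · rw [mul_inv_cancel₀ h0]
  have hsg2 : ∀ x, g x * sg x = ((‖g x‖ : ℝ) : 𝕜) := by
    intro x
    simp only [hsg]
    rw [← mul_assoc, RCLike.mul_conj]
    by_cases h0 : ‖g x‖ = 0
    · rw [h0]; simp
    · rw [← RCLike.ofReal_pow, ← RCLike.ofReal_mul]
      congr 1
      field_simp
  set H : Torus d → 𝕜 := s.indicator sg with hH
  have hHm : AEStronglyMeasurable H μ := hsgm.indicator hs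
  have hHb : ∀ x, ‖H x‖ ≤ 1 := by
    intro x
    rw [hH, Set.indicator_apply]
    split_ifs
    · exact hsg1 x
    · simp
  have hHi : Integrable H μ :=
    (integrable_const (1 : ℝ)).mono' hHm (Filter.Eventually.of_forall hHb)
  have hHn : ∫ x, ‖H x‖ ∂μ ≤ μ.real s := by
    have : ∀ x, ‖H x‖ ≤ s.indicator (fun _ => (1 : ℝ)) x := by
      intro x
      rw [hH, Set.indicator_apply, Set.indicator_apply]
      split_ifs
      · exact hsg1 x
      · simp
    refine (integral_mono hHi.norm ((integrable_const (1 : ℝ)).indicator hs) this).trans ?_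
    rw [integral_indicator hs, setIntegral_const]
    simp
  have hgH : ∀ x, g x * H x = s.indicator (fun x => ((‖g x‖ : ℝ) : 𝕜)) x := by
    intro x
    rw [hH, Set.indicator_apply, Set.indicator_apply]
    split_ifs
    · exact hsg2 x
    · simp
  have hint1 : ∫ x, g x * H x ∂μ = ((∫ x in s, ‖g x‖ ∂μ : ℝ) : 𝕜) := by
    simp_rw [hgH]
    rw [integral_indicator hs, integral_ofReal]
  apply le_of_forall_pos_le_add
  intro δ hδ
  set ε : ℝ := δ / (M + K + 1) with hε
  have hMK : 0 < M + K + 1 := by linarith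
  have hε0 : 0 < ε := by positivity
  obtain ⟨φ, hφ1, hφ2⟩ := hHi.exists_boundedContinuous_integral_sub_le hε0
  have hφc : Continuous (φ : Torus d → 𝕜) := φ.continuous
  have hgφ : Integrable (fun x => g x * φ x) μ := by
    have := integrable_cont_mul hφc hg
    refine this.congr (Filter.Eventually.of_forall fun x => ?_)
    simp only
    rw [mul_comm]
  have hgHi : Integrable (fun x => g x * H x) μ := by
    simp_rw [hgH]
    exact (hg.norm.ofReal).indicator hs
  have h1 : ∫ x, g x * H x ∂μ = ∫ x, g x * (H x - φ x) ∂μ + ∫ x, g x * φ x ∂μ := by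
    have e1 : ∀ x, g x * (H x - φ x) = g x * H x - g x * φ x := fun x => mul_sub _ _ _
    simp_rw [e1]
    rw [integral_sub hgHi hgφ]
    ring
  have h2 : ‖∫ x, g x * (H x - φ x) ∂μ‖ ≤ M * ε := by
    have e1 : ‖∫ x, g x * (H x - φ x) ∂μ‖ ≤ ∫ x, M * ‖H x - φ x‖ ∂μ := by
      apply norm_integral_le_of_norm_le ((hHi.sub hφ2).norm.const_mul M)
      filter_upwards [hM] with x hx
      rw [norm_mul]
      exact mul_le_mul_of_nonneg_right hx (norm_nonneg _)
    refine e1.trans ?_
    rw [integral_const_mul]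
    exact mul_le_mul_of_nonneg_left hφ1 hM0
  have h3 : ∫ x, ‖φ x‖ ∂μ ≤ μ.real s + ε := by
    have e1 : ∀ x, ‖φ x‖ ≤ ‖H x‖ + ‖H x - φ x‖ := by
      intro x
      calc ‖φ x‖ = ‖H x - (H x - φ x)‖ := by congr 1; ring
        _ ≤ _ := norm_sub_le _ _
    refine (integral_mono hφ2.norm (hHi.norm.add (hHi.sub hφ2).norm) e1).trans ?_
    refine (le_of_eq (integral_add hHi.norm (hHi.sub hφ2).norm)).trans ?_
    exact add_le_add hHn hφ1
  have h4 := h φ hφc
  have h5 : ∫ x in s, ‖g x‖ ∂μ ≤ ‖∫ x, g x * H x ∂μ‖ := by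
    rw [hint1, RCLike.norm_ofReal]
    exact le_abs_self _
  calc ∫ x in s, ‖g x‖ ∂μ ≤ ‖∫ x, g x * H x ∂μ‖ := h5
    _ ≤ ‖∫ x, g x * (H x - φ x) ∂μ‖ + ‖∫ x, g x * φ x ∂μ‖ := by
        rw [h1]; exact norm_add_le _ _
    _ ≤ M * ε + K * (μ.real s + ε) := by
        apply add_le_add h2
        exact h4.trans (mul_le_mul_of_nonneg_left h3 hK)
    _ ≤ μ.real s * K + δ := by
        have : (M + K) * ε ≤ δ := by
          rw [hε, mul_div_assoc', div_le_iff₀ hMK]
          nlinarith
        nlinarith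

end Pool.Agent.Helper65.LW
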