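import Mathlib
import Pool.Agent.Helper65.LW.Dual

set_option autoImplicit false

/-!
Transfer of the pointwise bound for real functions to operators on `L_∞`.
-/

namespace Pool.Agent.Helper65.LW

open MeasureTheory AddCircle Filter Topology
open Pool.Agent.Helper40.LinWidth
open scoped Real ENNReal

variable {𝕜 : Type*} [RCLike 𝕜] {d : ℕ}

/-- the functional `f ↦ ∫ χ f` -/
noncomputable def pair (χ : C(Torus d, 𝕜)) : LInfty 𝕜 d →L[𝕜] 𝕜 :=
  LinearMap.mkContinuous
    { toFun := fun f => ∫ x, χ x * f x ∂(torusMeasure d)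
      map_add' := by
        intro f g
        rw [← integral_add (integrable_cont_mul χ.continuous (integrable_LInfty f))
          (integrable_cont_mul χ.continuous (integrable_LInfty g))]
        apply integral_congr_ae
        filter_upwards [Lp.coeFn_add f g] with x hx
        rw [hx, Pi.add_apply, mul_add]
      map_smul' := by
        intro c f
        rw [RingHom.id_apply, smul_eq_mul, ← integral_const_mul]
        apply integral_congr_ae
        filter_upwards [Lp.coeFn_smul c f] with x hx
        rw [hx, Pi.smul_apply, smul_eq_mul]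
        ring }
    ‖χ‖ (by
      intro f
      have h1 : ∀ᵐ x ∂(torusMeasure d), ‖χ x * f x‖ ≤ ‖χ‖ * ‖f‖ := by
        filter_upwards [ae_le_norm f] with x hx
        rw [norm_mul]
        exact mul_le_mul (χ.norm_coe_le_norm x) hx (norm_nonneg _) (norm_nonneg _)
      have h2 := norm_integral_le_of_norm_le_const h1
      simpa using h2)

lemma pair_apply (χ : C(Torus d, 𝕜)) (f : LInfty 𝕜 d) :
    pair χ f = ∫ x, χ x * f x ∂(torusMeasure d) := rfl

/-- the finite rank operator -/
noncomputable def opA {ι : Type*} [Fintype ι] (φ χ : ι → C(Torus d, 𝕜)) :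
    LInfty 𝕜 d →L[𝕜] LInfty 𝕜 d :=
  ∑ i, (pair (χ i)).smulRight (ContinuousMap.toLp ∞ (torusMeasure d) 𝕜 (φ i))

lemma opA_apply {ι : Type*} [Fintype ι] (φ χ : ι → C(Torus d, 𝕜)) (f : LInfty 𝕜 d) :
    opA φ χ f = ContinuousMap.toLp ∞ (torusMeasure d) 𝕜 (∑ i, pair (χ i) f • φ i) := by
  rw [opA, ContinuousLinearMap.sum_apply, map_sum]
  apply Finset.sum_congr rfl
  intro i _
  rw [ContinuousLinearMap.smulRight_apply, map_smul]

lemma coeFn_opA {ι : Type*} [Fintype ι] (φ χ : ι → C(Torus d, 𝕜)) (f : LInfty 𝕜 d) :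
    (opA φ χ f : Torus d → 𝕜) =ᵐ[torusMeasure d] fun x => ∑ i, pair (χ i) f * φ i x := by
  rw [opA_apply]
  refine (ContinuousMap.coeFn_toLp (torusMeasure d) _).trans ?_
  refine Filter.Eventually.of_forall fun x => ?_
  simp

lemma rank_opA {ι : Type*} [Fintype ι] (φ χ : ι → C(Torus d, 𝕜)) :
    ((opA φ χ : LInfty 𝕜 d →L[𝕜] LInfty 𝕜 d) : LInfty 𝕜 d →ₗ[𝕜] LInfty 𝕜 d).rank ≤
      (Fintype.card ι : Cardinal) := by
  classical
  set g : ι → LInfty 𝕜 d := fun i => ContinuousMap.toLp ∞ (torusMeasure d) 𝕜 (φ i) with hg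
  have h : LinearMap.range ((opA φ χ : LInfty 𝕜 d →L[𝕜] LInfty 𝕜 d) :
      LInfty 𝕜 d →ₗ[𝕜] LInfty 𝕜 d) ≤
      Submodule.span 𝕜 ((Finset.univ.image g : Finset (LInfty 𝕜 d)) : Set (LInfty 𝕜 d)) := by
    rintro _ ⟨f, rfl⟩
    show opA φ χ f ∈ _
    rw [opA, ContinuousLinearMap.sum_apply]
    apply Submodule.sum_mem
    intro i _
    rw [ContinuousLinearMap.smulRight_apply]
    apply Submodule.smul_mem
    apply Submodule.subset_span
    rw [Finset.mem_coe]
    exact Finset.mem_image_of_mem g (Finset.mem_univ i)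
  refine (Submodule.rank_mono h).trans ((rank_span_finset_le _).trans ?_)
  exact_mod_cast Finset.card_image_le

/-- the convolution type function -/
noncomputable def Fh (f h : Torus d → 𝕜) (τ : Torus d) : 𝕜 :=
  ∫ y, f y * h (y - τ) ∂(torusMeasure d)

lemma continuous_Fh {f h : Torus d → 𝕜} (hf : Integrable f (torusMeasure d))
    (hh : Continuous h) : Continuous (Fh f h) := by
  obtain ⟨C, hC⟩ := (isCompact_univ (X := Torus d)).exists_bound_of_continuousOn hh.continuousOn
  unfold Fh
  apply continuous_of_dominated (bound := fun y => ‖f y‖ * C)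
  · intro τ
    exact hf.aestronglyMeasurable.mul
      (hh.comp (continuous_id.sub continuous_const)).aestronglyMeasurable
  · intro τ
    refine Filter.Eventually.of_forall fun y => ?_
    rw [norm_mul]
    exact mul_le_mul_of_nonneg_left (hC _ (Set.mem_univ _)) (norm_nonneg _)
  · exact hf.norm.mul_const C
  · refine Filter.Eventually.of_forall fun y => ?_
    exact continuous_const.mul (hh.comp (continuous_const.sub continuous_id))

lemma Fh_eq (f h : Torus d → 𝕜) (τ : Torus d) :
    Fh f h τ = ∫ x, f (x + τ) * h x ∂(torusMeasure d) := by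
  unfold Fh
  rw [← integral_add_right_eq_self (μ := torusMeasure d) (fun y => f y * h (y - τ)) τ]
  simp only [add_sub_cancel_right]

lemma integrable_shift {f : Torus d → 𝕜} (hf : Integrable f (torusMeasure d)) (τ : Torus d) :
    Integrable (fun x => f (x + τ)) (torusMeasure d) := hf.comp_add_right τ

lemma mixedDiff_Fh (l : ℕ) (e : Finset (Fin d)) (t : Fin d → ℝ) {f h : Torus d → 𝕜}
    (hf : Integrable f (torusMeasure d)) (hh : Continuous h) (τ : Torus d) :
    mixedDiff l e t (Fh f h) τ =
      ∫ x, mixedDiff l e t f (x + τ) * h x ∂(torusMeasure d) := by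
  unfold mixedDiff
  simp_rw [Finset.sum_mul]
  rw [integral_finsetSum]
  · apply Finset.sum_congr rfl
    intro k _
    rw [Fh_eq, ← integral_const_mul]
    apply integral_congr_ae
    refine Filter.Eventually.of_forall fun x => ?_
    simp only
    rw [← mul_assoc]
    congr 3
    ext j
    simp only [Pi.add_apply]
    rw [add_assoc]
  · intro k _
    have e1 : ∀ x : Torus d, (fun j => (x + τ) j + (((k j : ℝ) * t j : ℝ) : T1)) =
        x + (fun j => τ j + (((k j : ℝ) * t j : ℝ) : T1)) := by
      intro x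
      ext j
      simp only [Pi.add_apply]
      rw [add_assoc]
    have e2 := integrable_cont_mul hh
      (integrable_shift hf (fun j => τ j + (((k j : ℝ) * t j : ℝ) : T1)))
    have e3 := e2.const_mul
      (((∏ j ∈ e, ((-1 : ℝ) ^ (l - k j) * (l.choose (k j) : ℝ)) : ℝ) : 𝕜))
    refine e3.congr (Filter.Eventually.of_forall fun x => ?_)
    simp only
    rw [e1]
    ring

lemma mixedDiff_Fh_bound (l : ℕ) (e : Finset (Fin d)) (t : Fin d → ℝ) {f h : Torus d → 𝕜}
    (hf : Integrable f (torusMeasure d)) (hh : Continuous h) {P : ℝ}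
    (hP : ∀ᵐ x ∂(torusMeasure d), ‖mixedDiff l e t f x‖ ≤ P) (τ : Torus d) :
    ‖mixedDiff l e t (Fh f h) τ‖ ≤ (∫ x, ‖h x‖ ∂(torusMeasure d)) * P := by
  rw [mixedDiff_Fh l e t hf hh]
  have h1 : ∀ᵐ x ∂(torusMeasure d), ‖mixedDiff l e t f (x + τ) * h x‖ ≤ ‖h x‖ * P := by
    have h2 := (measurePreserving_add_right (torusMeasure d) τ).quasiMeasurePreserving.ae hP
    filter_upwards [h2] with x hx
    rw [norm_mul, mul_comm]
    exact mul_le_mul_of_nonneg_left hx (norm_nonneg _)
  have h3 : Integrable (fun x => ‖h x‖) (torusMeasure d) :=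
    integrable_of_continuous' hh.norm
  refine (norm_integral_le_of_norm_le (h3.mul_const P) h1).trans ?_
  rw [integral_mul_const]

lemma mixedDiff_re (l : ℕ) (e : Finset (Fin d)) (t : Fin d → ℝ) (c : 𝕜) (F : Torus d → 𝕜)
    (x : Torus d) :
    mixedDiff l e t (fun y => RCLike.re (c * F y)) x = RCLike.re (c * mixedDiff l e t F x) := by
  unfold mixedDiff
  rw [Finset.mul_sum, map_sum]
  apply Finset.sum_congr rfl
  intro k _
  rw [mul_left_comm, RCLike.re_ofReal_mul]
  simp

theorem transfer {Q : Torus d → ℝ} (hQc : Continuous Q) {K r : ℝ} (hK0 : 0 ≤ K) {l : ℕ}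
    (hK : ∀ (B : ℝ) (_ : 0 ≤ B) (G : Torus d → ℝ) (_ : Continuous G) (_ : MH l r B G),
      |G (fun _ => 0) - ∫ v, Q v * G v ∂(torusMeasure d)| ≤ B * K)
    {ι : Type*} [Fintype ι] (φ χ : ι → C(Torus d, 𝕜))
    (hQ : ∀ x v : Torus d, ∑ i, φ i x * χ i v = ((Q (v - x) : ℝ) : 𝕜))
    (f : LInfty 𝕜 d)
    (hf : ∀ e : Finset (Fin d), e.Nonempty → ∀ t : Fin d → ℝ,
      ∀ᵐ x ∂(torusMeasure d), ‖mixedDiff l e t (f : Torus d → 𝕜) x‖ ≤ ∏ j ∈ e, |t j| ^ r) :
    ‖f - opA φ χ f‖ ≤ K := by
  classical
  set μ := torusMeasure d with hμ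
  have hfi : Integrable f μ := integrable_LInfty f
  have hAi : Integrable (opA φ χ f : Torus d → 𝕜) μ := integrable_LInfty _
  have hgi : Integrable (f - opA φ χ f : LInfty 𝕜 d) μ := integrable_LInfty _
  have main : ∀ h : Torus d → 𝕜, Continuous h →
      ‖∫ x, (f - opA φ χ f : LInfty 𝕜 d) x * h x ∂μ‖ ≤ K * ∫ x, ‖h x‖ ∂μ := by
    intro h hh
    set F : Torus d → 𝕜 := Fh (f : Torus d → 𝕜) h with hF
    have hFc : Continuous F := continuous_Fh hfi hh
    -- the pairing
    have hD1 : ∫ x, (f - opA φ χ f : LInfty 𝕜 d) x * h x ∂μ =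
        ∫ x, f x * h x ∂μ - ∫ x, (opA φ χ f : LInfty 𝕜 d) x * h x ∂μ := by
      have i1 : Integrable (fun x => f x * h x) μ := by
        refine (integrable_cont_mul hh hfi).congr (Filter.Eventually.of_forall fun x => ?_)
        simp only
        rw [mul_comm]
      have i2 : Integrable (fun x => (opA φ χ f : LInfty 𝕜 d) x * h x) μ := by
        refine (integrable_cont_mul hh hAi).congr (Filter.Eventually.of_forall fun x => ?_)
        simp only
        rw [mul_comm]
      rw [← integral_sub i1 i2]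
      apply integral_congr_ae
      filter_upwards [Lp.coeFn_sub f (opA φ χ f)] with x hx
      rw [hx, Pi.sub_apply, sub_mul]
    have hD2 : ∫ x, f x * h x ∂μ = F (fun _ => 0) := by
      rw [hF, Fh_eq]
      apply integral_congr_ae
      refine Filter.Eventually.of_forall fun x => ?_
      simp only
      congr 2
      ext j
      simp
    have hD3 : ∫ x, (opA φ χ f : LInfty 𝕜 d) x * h x ∂μ =
        ∑ i, pair (χ i) f * ∫ x, φ i x * h x ∂μ := by
      have e1 : ∫ x, (opA φ χ f : LInfty 𝕜 d) x * h x ∂μ =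
          ∫ x, ∑ i, pair (χ i) f * (φ i x * h x) ∂μ := by
        apply integral_congr_ae
        filter_upwards [coeFn_opA φ χ f] with x hx
        rw [hx, Finset.sum_mul]
        apply Finset.sum_congr rfl
        intro i _
        ring
      rw [e1, integral_finsetSum]
      · apply Finset.sum_congr rfl
        intro i _
        rw [integral_const_mul]
      · intro i _
        exact (integrable_cont_mul (φ i).continuous
          (integrable_of_continuous' hh)).const_mul _
    have hD4 : ∫ v, ((Q v : ℝ) : 𝕜) * F v ∂μ = ∑ i, pair (χ i) f * ∫ x, φ i x * h x ∂μ := by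
      have hQc' : Continuous fun v => ((Q v : ℝ) : 𝕜) := RCLike.continuous_ofReal.comp hQc
      obtain ⟨C, hC⟩ := (isCompact_univ (X := Torus d)).exists_bound_of_continuousOn
        hQc'.continuousOn
      obtain ⟨C', hC'⟩ := (isCompact_univ (X := Torus d)).exists_bound_of_continuousOn
        hh.continuousOn
      have e1 : ∀ v, ((Q v : ℝ) : 𝕜) * F v = ∫ y, ((Q v : ℝ) : 𝕜) * (f y * h (y - v)) ∂μ := by
        intro v
        rw [hF, Fh, integral_const_mul]
      simp_rw [e1]
      rw [integral_integral_swap]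
      · have e2 : ∀ y : Torus d, ∫ v, ((Q v : ℝ) : 𝕜) * (f y * h (y - v)) ∂μ =
            ∑ i, (χ i y * f y) * ∫ x, φ i x * h x ∂μ := by
          intro y
          have e3 : ∫ v, ((Q v : ℝ) : 𝕜) * (f y * h (y - v)) ∂μ =
              ∫ v, (fun x => ((Q (y - x) : ℝ) : 𝕜) * (f y * h x)) (y - v) ∂μ := by
            apply integral_congr_ae
            refine Filter.Eventually.of_forall fun v => ?_
            simp only [sub_sub_cancel]
          rw [e3, integral_sub_left_eq_self (fun x => ((Q (y - x) : ℝ) : 𝕜) * (f y * h x)) μ y]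
          have e4 : ∀ x, ((Q (y - x) : ℝ) : 𝕜) * (f y * h x) =
              ∑ i, (χ i y * f y) * (φ i x * h x) := by
            intro x
            rw [← hQ, Finset.sum_mul]
            apply Finset.sum_congr rfl
            intro i _
            ring
          simp_rw [e4]
          rw [integral_finsetSum]
          · apply Finset.sum_congr rfl
            intro i _
            rw [integral_const_mul]
          · intro i _
            exact (integrable_cont_mul (φ i).continuous
              (integrable_of_continuous' hh)).const_mul _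
        simp_rw [e2]
        rw [integral_finsetSum]
        · apply Finset.sum_congr rfl
          intro i _
          rw [integral_mul_const, pair_apply]
        · intro i _
          exact (integrable_cont_mul (χ i).continuous hfi).mul_const _
      · -- joint integrability
        have j1 : Integrable (fun p : Torus d × Torus d => (1 : 𝕜) * f p.2) (μ.prod μ) :=
          Integrable.mul_prod (integrable_const (1 : 𝕜)) hfi
        have j2 : Continuous fun p : Torus d × Torus d => ((Q p.1 : ℝ) : 𝕜) * h (p.2 - p.1) :=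
          (hQc'.comp continuous_fst).mul (hh.comp (continuous_snd.sub continuous_fst))
        have j3 : AEStronglyMeasurable (fun p : Torus d × Torus d =>
            ((Q p.1 : ℝ) : 𝕜) * (f p.2 * h (p.2 - p.1))) (μ.prod μ) := by
          have := j2.aestronglyMeasurable (μ := μ.prod μ) |>.mul j1.aestronglyMeasurable
          refine this.congr (Filter.Eventually.of_forall fun p => ?_)
          simp only [Pi.mul_apply]
          ring
        refine (j1.norm.const_mul (C * C')).mono' j3 (Filter.Eventually.of_forall fun p => ?_)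
        have c0 : 0 ≤ C := (norm_nonneg _).trans (hC p.1 (Set.mem_univ _))
        show ‖((Q p.1 : ℝ) : 𝕜) * (f p.2 * h (p.2 - p.1))‖ ≤ C * C' * ‖(1 : 𝕜) * f p.2‖
        rw [norm_mul, norm_mul, one_mul]
        calc ‖((Q p.1 : ℝ) : 𝕜)‖ * (‖f p.2‖ * ‖h (p.2 - p.1)‖)
            ≤ C * (‖f p.2‖ * C') := by
              apply mul_le_mul (hC p.1 (Set.mem_univ _)) _ (by positivity) c0
              exact mul_le_mul_of_nonneg_left (hC' _ (Set.mem_univ _)) (norm_nonneg _)
          _ = C * C' * ‖f p.2‖ := by ring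
    have hD : ∫ x, (f - opA φ χ f : LInfty 𝕜 d) x * h x ∂μ =
        F (fun _ => 0) - ∫ v, ((Q v : ℝ) : 𝕜) * F v ∂μ := by
      rw [hD1, hD2, hD3, hD4]
    rw [hD]
    set D : 𝕜 := F (fun _ => 0) - ∫ v, ((Q v : ℝ) : 𝕜) * F v ∂μ with hDdef
    -- unimodular constant
    obtain ⟨c, hc1, hc2⟩ : ∃ c : 𝕜, ‖c‖ ≤ 1 ∧ c * D = ((‖D‖ : ℝ) : 𝕜) := by
      by_cases h0 : ‖D‖ = 0
      · refine ⟨0, by simp, ?_⟩
        rw [h0]; simp
      · refine ⟨(starRingEnd 𝕜) D * ((‖D‖⁻¹ : ℝ) : 𝕜), ?_, ?_⟩
        · rw [norm_mul, RCLike.norm_conj, RCLike.norm_ofReal, abs_inv, abs_norm,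
            mul_inv_cancel₀ h0]
        · rw [mul_right_comm, RCLike.conj_mul, ← RCLike.ofReal_pow, ← RCLike.ofReal_mul]
          congr 1
          field_simp
    set G : Torus d → ℝ := fun τ => RCLike.re (c * F τ) with hG
    have hGc : Continuous G := RCLike.continuous_re.comp (continuous_const.mul hFc)
    have hB0 : 0 ≤ ∫ x, ‖h x‖ ∂μ := integral_nonneg fun x => norm_nonneg _
    have hMH : MH l r (∫ x, ‖h x‖ ∂μ) G := by
      intro e he t x
      have hP0 : 0 ≤ ∏ j ∈ e, |t j| ^ r :=
        Finset.prod_nonneg fun j _ => Real.rpow_nonneg (abs_nonneg _) _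
      have e1 : mixedDiff l e t G x = RCLike.re (c * mixedDiff l e t F x) :=
        mixedDiff_re l e t c F x
      rw [e1]
      refine (RCLike.abs_re_le_norm _).trans ?_
      rw [norm_mul]
      calc ‖c‖ * ‖mixedDiff l e t F x‖ ≤ 1 * ‖mixedDiff l e t F x‖ :=
            mul_le_mul_of_nonneg_right hc1 (norm_nonneg _)
        _ = ‖mixedDiff l e t F x‖ := one_mul _
        _ ≤ _ := mixedDiff_Fh_bound l e t hfi hh (hf e he t) x
    have h6 := hK _ hB0 G hGc hMH
    have h7 : G (fun _ => 0) - ∫ v, Q v * G v ∂μ = ‖D‖ := by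
      have i1 : Integrable (fun v => ((Q v : ℝ) : 𝕜) * F v) μ :=
        integrable_cont_mul (RCLike.continuous_ofReal.comp hQc) (integrable_of_continuous' hFc)
      have e1 : ∫ v, Q v * G v ∂μ = RCLike.re (c * ∫ v, ((Q v : ℝ) : 𝕜) * F v ∂μ) := by
        rw [← integral_const_mul, ← integral_re (i1.const_mul c)]
        apply integral_congr_ae
        refine Filter.Eventually.of_forall fun v => ?_
        simp only [hG]
        rw [mul_left_comm, RCLike.re_ofReal_mul]
      rw [e1, hG]
      simp only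
      rw [← map_sub, ← mul_sub, ← hDdef, hc2, RCLike.ofReal_re]
    rw [h7, abs_norm] at h6
    rw [mul_comm]
    exact h6
  have h8 := ae_bound_of_dual hgi (ae_le_norm _) hK0 main
  have h9 := Lp.norm_le_of_ae_bound hK0 h8
  simpa using h9

end Pool.Agent.Helper65.LW
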