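import Mathlib
import Pool.Agent.Helper65.LW.Transfer

set_option autoImplicit false

/-!
The upper bound: good finite rank operators on the mixed Hölder class.
-/

namespace Pool.Agent.Helper65.LW

open MeasureTheory AddCircle Filter Topology
open Pool.Agent.Helper40.LinWidth
open scoped Real ENNReal

/-- degree -/
def Dg (l s : ℕ) : ℕ := (l + 1) * 2 ^ s

/-- coefficients of `qs` -/
noncomputable def cc (l s : ℕ) : ℕ → ℝ := (ET_qs l s).choose

lemma qs_eq (l s : ℕ) (v : T1) :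
    qs l s v = ∑ n ∈ Finset.range (Dg l s + 1), cc l s n * cs (n : ℤ) v :=
  (ET_qs l s).choose_spec v

/-- the trigonometric system -/
noncomputable def tr (a : ℕ × Bool) (v : T1) : ℝ := if a.2 then cs (a.1 : ℤ) v else sn (a.1 : ℤ) v

lemma continuous_tr (a : ℕ × Bool) : Continuous (tr a) := by
  unfold tr
  split_ifs
  · exact continuous_cs _
  · exact continuous_sn _

/-- index set in one variable -/
def I1 (l s : ℕ) : Finset (ℕ × Bool) := Finset.range (Dg l s + 1) ×ˢ (Finset.univ : Finset Bool)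

lemma qs_sub_eq (l s : ℕ) (v x : T1) :
    qs l s (v - x) = ∑ a ∈ I1 l s, (cc l s a.1 * tr a x) * tr a v := by
  rw [qs_eq, I1, Finset.sum_product]
  apply Finset.sum_congr rfl
  intro n _
  rw [cs_sub, Fintype.sum_bool]
  simp only [tr, if_true, Bool.false_eq_true, if_false]
  ring

/-- the full index set -/
def I2 (d l n : ℕ) : Finset (Σ _ : Fin d → ℕ, Fin d → ℕ × Bool) :=
  (HC d n).sigma fun s => Fintype.piFinset fun j => I1 l (s j)

lemma Qn_sub_eq (d l n : ℕ) (x v : Torus d) :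
    Qn d l n (v - x) = ∑ p ∈ I2 d l n,
      (∏ j, (cc l (p.1 j) (p.2 j).1 * tr (p.2 j) (x j))) * ∏ j, tr (p.2 j) (v j) := by
  rw [Qn, I2, Finset.sum_sigma]
  apply Finset.sum_congr rfl
  intro s _
  have h := Finset.prod_univ_sum (fun j : Fin d => I1 l (s j))
    (fun j a => (cc l (s j) a.1 * tr a (x j)) * tr a (v j))
  simp only [← qs_sub_eq] at h
  refine Eq.trans ?_ (h.trans ?_)
  · rfl
  · apply Finset.sum_congr rfl
    intro a _
    rw [Finset.prod_mul_distrib]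

lemma HC_sum (d n : ℕ) : ∑ s ∈ HC (d + 1) n, 2 ^ (∑ j, s j) ≤ (n + 1) ^ d * 2 ^ (n + 1) := by
  classical
  rw [← Finset.sum_fiberwise_of_maps_to (g := fun s : Fin (d + 1) → ℕ => ∑ j, s j)
    (t := Finset.range (n + 1)) (fun s hs => by
      rw [Finset.mem_range]
      have := mem_HC.1 hs
      omega)]
  calc ∑ m ∈ Finset.range (n + 1), ∑ s ∈ HC (d + 1) n with ∑ j, s j = m, 2 ^ (∑ j, s j)
      ≤ ∑ m ∈ Finset.range (n + 1), (n + 1) ^ d * 2 ^ m := by
        apply Finset.sum_le_sum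
        intro m hm
        rw [Finset.mem_range] at hm
        have h2 : ∀ s ∈ (HC (d + 1) n).filter (fun s => ∑ j, s j = m),
            2 ^ (∑ j, s j) = 2 ^ m := by
          intro s hs
          rw [Finset.mem_filter] at hs
          rw [hs.2]
        rw [Finset.sum_congr rfl h2, Finset.sum_const, smul_eq_mul]
        apply Nat.mul_le_mul_right
        refine (card_lev d m _ (fun s hs => (Finset.mem_filter.1 hs).2)).trans ?_
        apply Nat.pow_le_pow_left
        omega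
    _ = (n + 1) ^ d * ∑ m ∈ Finset.range (n + 1), 2 ^ m := by rw [Finset.mul_sum]
    _ ≤ (n + 1) ^ d * 2 ^ (n + 1) := by
        apply Nat.mul_le_mul_left
        exact (Nat.geomSum_lt (m := 2) (n := n + 1) (s := Finset.range (n + 1)) le_rfl
          (fun k hk => Finset.mem_range.1 hk)).le

lemma card_I2 (d l n : ℕ) :
    (I2 (d + 1) l n).card ≤ (2 * (l + 2)) ^ (d + 1) * ((n + 1) ^ d * 2 ^ (n + 1)) := by
  rw [I2, Finset.card_sigma]
  refine le_trans ?_ (Nat.mul_le_mul_left _ (HC_sum d n))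
  rw [Finset.mul_sum]
  apply Finset.sum_le_sum
  intro s _
  rw [Fintype.card_piFinset, ← Finset.prod_pow_eq_pow_sum]
  have h1 : (2 * (l + 2)) ^ (d + 1) = ∏ _j : Fin (d + 1), (2 * (l + 2)) := by
    rw [Finset.prod_const, Finset.card_univ, Fintype.card_fin]
  rw [h1, ← Finset.prod_mul_distrib]
  apply Finset.prod_le_prod'
  intro j _
  rw [I1, Finset.card_product, Finset.card_range, Finset.card_univ, Fintype.card_bool, Dg]
  have : 1 ≤ 2 ^ s j := Nat.one_le_two_pow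
  nlinarith

theorem exists_good_operator (𝕜 : Type*) [RCLike 𝕜] (d : ℕ) (hd : 1 ≤ d) (r : ℝ) (hr : 0 < r)
    (l : ℕ) (hl : r < l) :
    ∃ C1 C2 : ℝ, ∀ n : ℕ, ∃ A : LInfty 𝕜 d →L[𝕜] LInfty 𝕜 d, ∃ N : ℕ,
      (A : LInfty 𝕜 d →ₗ[𝕜] LInfty 𝕜 d).rank ≤ (N : Cardinal) ∧
      (N : ℝ) ≤ C1 * ((n : ℝ) + 1) ^ (d - 1) * 2 ^ n ∧
      ∀ f ∈ mixedHolderClass 𝕜 d r l,
        ‖f - A f‖ ≤ C2 * ((n : ℝ) + 1) ^ (d - 1) * (2 : ℝ) ^ (-r * n) := by
  obtain ⟨d, rfl⟩ : ∃ d', d = d' + 1 := ⟨d - 1, by omega⟩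
  obtain ⟨C, hC0, hC⟩ := func_bound d hr hl
  refine ⟨2 * (2 * ((l : ℝ) + 2)) ^ (d + 1), C, fun n => ?_⟩
  have hφc : ∀ p : (Σ _ : Fin (d + 1) → ℕ, Fin (d + 1) → ℕ × Bool),
      Continuous fun x : Torus (d + 1) =>
        ((∏ j, (cc l (p.1 j) (p.2 j).1 * tr (p.2 j) (x j)) : ℝ) : 𝕜) := fun p =>
    RCLike.continuous_ofReal.comp (continuous_finsetProd _ fun j _ =>
      continuous_const.mul ((continuous_tr _).comp (continuous_apply j)))
  have hχc : ∀ p : (Σ _ : Fin (d + 1) → ℕ, Fin (d + 1) → ℕ × Bool),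
      Continuous fun v : Torus (d + 1) => ((∏ j, tr (p.2 j) (v j) : ℝ) : 𝕜) := fun p =>
    RCLike.continuous_ofReal.comp (continuous_finsetProd _ fun j _ =>
      (continuous_tr _).comp (continuous_apply j))
  let φ : I2 (d + 1) l n → C(Torus (d + 1), 𝕜) := fun p => ⟨_, hφc p.1⟩
  let χ : I2 (d + 1) l n → C(Torus (d + 1), 𝕜) := fun p => ⟨_, hχc p.1⟩
  have hQ : ∀ x v : Torus (d + 1), ∑ i, φ i x * χ i v = ((Qn (d + 1) l n (v - x) : ℝ) : 𝕜) := by
    intro x v
    rw [Qn_sub_eq, RCLike.ofReal_sum]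
    refine Eq.trans ?_ (Finset.sum_coe_sort (I2 (d + 1) l n) _)
    apply Finset.sum_congr rfl
    intro i _
    rw [RCLike.ofReal_mul]
    rfl
  refine ⟨opA φ χ, (I2 (d + 1) l n).card, ?_, ?_, ?_⟩
  · have := rank_opA φ χ
    rwa [Fintype.card_coe] at this
  · have h1 := card_I2 d l n
    have h2 : ((I2 (d + 1) l n).card : ℝ) ≤
        (2 * ((l : ℝ) + 2)) ^ (d + 1) * (((n : ℝ) + 1) ^ d * 2 ^ (n + 1)) := by
      exact_mod_cast h1
    refine h2.trans (le_of_eq ?_)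
    rw [Nat.add_sub_cancel, pow_succ (2 : ℝ) n]
    ring
  · intro f hf
    have hK0 : 0 ≤ C * (((n : ℝ) + 1) ^ d * (2 : ℝ) ^ (-(r * n))) := by positivity
    have h1 := transfer (continuous_Qn (d + 1) l n) hK0
      (fun B hB G hG hG2 => hC n B hB G hG hG2) φ χ hQ f hf.2
    refine h1.trans (le_of_eq ?_)
    rw [Nat.add_sub_cancel, neg_mul, mul_assoc]

end Pool.Agent.Helper65.LW
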