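import Pool.Agent.Helper51.GP.Defs
import Pool.Agent.Helper2.PG.CluM

/-!
# PG+ (b), law half, block LOW: the capped weights are below the truncated ones, up to rare events
-/

set_option autoImplicit false

namespace Pool.Agent.Helper65.LW

open MeasureTheory ProbabilityTheory Filter Pool.Agent.Helper79.GR Pool.Agent.Helper51.GP
open Pool.Agent.Helper2.PG

section det

variable {d : ℕ}

/-- the edges with a base point in the cube of radius `n` around `0` -/
noncomputable def EB (d n : ℕ) : Finset (Edge d) := by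
  classical
  exact ((Fintype.piFinset fun _ : Fin d => Finset.Icc (-(n : ℤ)) n) ×ˢ Finset.univ).image
    fun p : V d × Fin d => ed p.1 (p.2, true)

theorem card_EB (d n : ℕ) : (EB d n).card ≤ (2 * n + 1) ^ d * d := by
  classical
  refine Finset.card_image_le.trans ?_
  rw [Finset.card_product, Fintype.card_piFinset, Finset.prod_const, Finset.card_univ,
    Fintype.card_fin, Int.card_Icc]
  refine le_of_eq ?_
  congr 2
  omega

theorem mem_EB_of {n : ℕ} {x : V d} {i : Fin d} (h : ∀ j, |x j| ≤ n) :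
    ed x (i, true) ∈ EB d n := by
  classical
  refine Finset.mem_image.2 ⟨(x, i), Finset.mem_product.2 ⟨?_, Finset.mem_univ _⟩, rfl⟩
  rw [Fintype.mem_piFinset]
  intro j
  rw [Finset.mem_Icc]
  exact abs_le.1 (h j)

theorem abs_sv_le (s : St d) (j : Fin d) : |sv s j| ≤ 1 := by
  unfold sv
  by_cases h : j = s.1
  · subst h
    rw [Pi.single_eq_same]
    split_ifs <;> simp
  · rw [Pi.single_eq_of_ne h]
    simp

theorem ed_mem_EB {n : ℕ} {x : V d} (s : St d) (h : ∀ j, |x j| + 1 ≤ n) : ed x s ∈ EB d n := by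
  rcases s with ⟨i, _ | _⟩
  · rw [ed_false]
    refine mem_EB_of fun j => ?_
    have h1 := h j
    have h2 := abs_sv_le ((i, true) : St d) j
    rw [sv_true] at h2
    have h3 := abs_sub (x j) (ee i j)
    rw [Pi.sub_apply]
    omega
  · refine mem_EB_of fun j => ?_
    have h1 := h j
    omega

theorem mem_EB {n : ℕ} (w : List (St d)) : ∀ (x : V d) (m : ℕ), (∀ j, |x j| ≤ m) →
    m + w.length ≤ n → ∀ e ∈ eds x w, e ∈ EB d n := by
  induction w with
  | nil =>
    intro x m _ _ e he
    exact absurd he List.not_mem_nil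
  | cons s w ih =>
    intro x m hm hn e he
    rw [List.length_cons] at hn
    have he' : e ∈ ed x s :: eds (x + sv s) w := he
    rw [List.mem_cons] at he'
    rcases he' with h1 | h1
    · rw [h1]
      refine ed_mem_EB s fun j => ?_
      have := hm j
      omega
    · refine ih (x + sv s) (m + 1) (fun j => ?_) (by omega) e h1
      have h2 := hm j
      have h3 := abs_sv_le s j
      have h4 := abs_add_le (x j) (sv s j)
      rw [Pi.add_apply]
      push_cast
      omega

theorem cost_nonneg' {c : Edge d → ℝ} (hc : ∀ e, 0 ≤ c e) (x : V d) (w : List (St d)) :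
    0 ≤ cost c x w := by
  induction w generalizing x with
  | nil => exact le_rfl
  | cons s w ih => exact add_nonneg (hc _) (ih _)

theorem T_le_cost'' {c : Edge d → ℝ} (hc : ∀ e, 0 ≤ c e) {x y : V d} {w : List (St d)}
    (hw : pos x w = y) : T c x y ≤ cost c x w := by
  refine ciInf_le_of_le ⟨0, ?_⟩ ⟨w, hw⟩ le_rfl
  rintro r ⟨w, rfl⟩
  exact cost_nonneg' hc x w.1

theorem cost_le_of {c c' : Edge d → ℝ} (x : V d) (w : List (St d))
    (h : ∀ e ∈ eds x w, c e ≤ c' e) : cost c x w ≤ cost c' x w := by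
  induction w generalizing x with
  | nil => exact le_rfl
  | cons s w ih =>
    exact add_le_add (h _ List.mem_cons_self)
      (ih _ fun e he => h e (List.mem_cons_of_mem _ he))

theorem T_nonneg'' {c : Edge d → ℝ} (hc : ∀ e, 0 ≤ c e) (x y : V d) : 0 ≤ T c x y :=
  Real.iInf_nonneg fun w => cost_nonneg' hc x w.1

end det

variable {Ω : Type*} [MeasurableSpace Ω] {P : Measure Ω} {d : ℕ}

/-- the mean of the passage time for the weights `s` is not larger than for the weights `Y`, up to
the rare events -/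
theorem mean_le {Y : Edge d → Ω → ℝ} {ν : Measure ℝ} {δ b a : ℝ} (hE : Env P Y ν δ b)
    (hR : Reg P Y a) {s : Ω → Edge d → ℝ} (hs0 : ∀ ω e, 0 ≤ s ω e)
    (hsm : ∀ e, Measurable fun ω => s ω e) {M ε p : ℝ} (hM0 : 0 ≤ M)
    (hMi : ∀ e, Integrable (fun ω => (s ω e) ^ 2) P) (hM : ∀ e, ∫ ω, (s ω e) ^ 2 ∂P ≤ M)
    (hε : ∀ e, P.real {ω | Y e ω < s ω e} ≤ ε) (x : V d) (n : ℕ) (hn : b * n1 x ≤ a * n)
    (hp : 0 < p) (hpp : Real.exp (-n) + ((2 * n + 1) ^ d * d) * ε ≤ p ^ 2) :
    ∫ ω, T (s ω) 0 x ∂P ≤ mm P Y x + n1 x * ((M + 1) * p) := by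
  classical
  have := hE.prob
  obtain ⟨w₀, hw₀, hw₀l⟩ := exists_walk (0 : V d) x
  rw [sub_zero] at hw₀l
  set A : Set Ω := {ω | ∃ w : List (St d), n ≤ w.length ∧ (eds 0 w).Nodup ∧
    cost (cf Y ω) 0 w ≤ a * w.length} ∪ ⋃ e ∈ EB d n, {ω | Y e ω < s ω e} with hA
  have hPA : P.real A ≤ p ^ 2 := by
    refine (measureReal_union_le _ _).trans (le_trans (add_le_add ?_ ?_) hpp)
    · have h1 := hR.peierls n
      exact ENNReal.toReal_le_of_le_ofReal (Real.exp_pos _).le h1
    · refine (measureReal_biUnion_finset_le _ _).trans ?_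
      refine (Finset.sum_le_sum fun e _ => hε e).trans ?_
      rw [Finset.sum_const, nsmul_eq_mul]
      by_cases hne : (EB d n).Nonempty
      · obtain ⟨e, _⟩ := hne
        have h0 : 0 ≤ ε := measureReal_nonneg.trans (hε e)
        refine mul_le_mul_of_nonneg_right ?_ h0
        exact_mod_cast card_EB d n
      · rw [Finset.not_nonempty_iff_eq_empty] at hne
        rw [hne]
        by_cases hd0 : d = 0
        · subst hd0
          simp
        · -- the box is not empty
          exfalso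
          have h1 : ed (0 : V d) ((⟨0, Nat.pos_of_ne_zero hd0⟩ : Fin d), true) ∈ EB d n :=
            mem_EB_of fun j => by simp
          rw [hne] at h1
          exact absurd h1 (Finset.notMem_empty _)
  set B : Set Ω := toMeasurable P A with hB
  have hBm : MeasurableSet B := measurableSet_toMeasurable P A
  have hPB : P.real B ≤ p ^ 2 := by
    rw [hB, measureReal_def, measure_toMeasurable, ← measureReal_def]
    exact hPA
  have hAB : A ⊆ B := subset_toMeasurable P A
  have hs0' : ∀ ω x w, 0 ≤ cost (s ω) x w := fun ω x w => cost_nonneg' (hs0 ω) x w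
  -- the pointwise bound
  have hpt : ∀ ω, T (s ω) 0 x ≤ T (cf Y ω) 0 x +
      B.indicator (fun ω => cost (s ω) 0 w₀) ω := by
    intro ω
    have hbd := hE.cf_bd ω
    by_cases hω : ω ∈ B
    · rw [Set.indicator_of_mem hω]
      have h1 := T_le_cost'' (hs0 ω) hw₀
      have h2 : 0 ≤ T (cf Y ω) 0 x := T_nonneg'' (fun e => hbd.1.le.trans (hbd.2 e).1) 0 x
      linarith
    · rw [Set.indicator_of_notMem hω, add_zero]
      have hωA : ω ∉ A := fun h => hω (hAB h)
      rw [hA, Set.mem_union, not_or] at hωA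
      obtain ⟨w, hw, hwT⟩ := exists_min hbd 0 x
      have hgeo : Geo (cf Y ω) 0 w := by
        rw [geo_iff hbd, hw, hwT]
      have hnd := Geo.nodup hbd hgeo
      have hlen : w.length < n := by
        by_contra hlt
        rw [not_lt] at hlt
        have h1 : ¬ cost (cf Y ω) 0 w ≤ a * w.length := fun h => hωA.1 ⟨w, hlt, hnd, h⟩
        rw [not_le, hwT] at h1
        have h2 := T_le hbd 0 x
        rw [sub_zero] at h2
        have h3 : a * (n : ℝ) ≤ a * w.length :=
          mul_le_mul_of_nonneg_left (by exact_mod_cast hlt) hR.apos.le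
        linarith
      have h4 : ∀ e ∈ eds 0 w, s ω e ≤ cf Y ω e := by
        intro e he
        have h5 : e ∈ EB d n := mem_EB w 0 0 (fun j => by simp) (by omega) e he
        by_contra hlt
        rw [not_le] at hlt
        exact hωA.2 (Set.mem_iUnion₂.2 ⟨e, h5, hlt⟩)
      calc T (s ω) 0 x ≤ cost (s ω) 0 w := T_le_cost'' (hs0 ω) hw
        _ ≤ cost (cf Y ω) 0 w := cost_le_of 0 w h4
        _ = T (cf Y ω) 0 x := hwT
  -- one edge
  have hedge : ∀ e, Integrable (fun ω => B.indicator (fun ω => s ω e) ω) P ∧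
      ∫ ω, B.indicator (fun ω => s ω e) ω ∂P ≤ (M + 1) * p / 2 := by
    intro e
    have h1 : Integrable (fun ω => p * (s ω e) ^ 2 / 2 +
        B.indicator (fun _ => (1 / (2 * p) : ℝ)) ω) P :=
      (((hMi e).const_mul p).div_const 2).add ((integrable_const _).indicator hBm)
    have h2 : ∀ ω, 0 ≤ B.indicator (fun ω => s ω e) ω ∧ B.indicator (fun ω => s ω e) ω ≤
        p * (s ω e) ^ 2 / 2 + B.indicator (fun _ => (1 / (2 * p) : ℝ)) ω := by
      intro ω
      by_cases hω : ω ∈ B
      · rw [Set.indicator_of_mem hω, Set.indicator_of_mem hω]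
        refine ⟨hs0 ω e, ?_⟩
        have h3 : 0 ≤ (p * s ω e - 1) ^ 2 / (2 * p) := by positivity
        have h4 : (p * s ω e - 1) ^ 2 / (2 * p) =
            p * (s ω e) ^ 2 / 2 + 1 / (2 * p) - s ω e := by
          field_simp
          ring
        linarith
      · rw [Set.indicator_of_notMem hω, Set.indicator_of_notMem hω, add_zero]
        exact ⟨le_rfl, by positivity⟩
    have h3 : Integrable (fun ω => B.indicator (fun ω => s ω e) ω) P := by
      refine h1.mono' (((hsm e).indicator hBm).aestronglyMeasurable)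
        (Filter.Eventually.of_forall fun ω => ?_)
      rw [Real.norm_eq_abs, abs_of_nonneg (h2 ω).1]
      exact (h2 ω).2
    refine ⟨h3, (integral_mono h3 h1 fun ω => (h2 ω).2).trans ?_⟩
    rw [integral_add (((hMi e).const_mul p).div_const 2) ((integrable_const _).indicator hBm),
      integral_div, integral_const_mul, integral_indicator hBm, setIntegral_const, smul_eq_mul]
    have h4 : P.real B * (1 / (2 * p)) ≤ p ^ 2 * (1 / (2 * p)) :=
      mul_le_mul_of_nonneg_right hPB (by positivity)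
    have h5 : p ^ 2 * (1 / (2 * p)) = p / 2 := by
      field_simp
    have h6 := mul_le_mul_of_nonneg_left (hM e) hp.le
    linarith
  have hcost : ∀ (w : List (St d)) (x : V d),
      Integrable (fun ω => B.indicator (fun ω => cost (s ω) x w) ω) P ∧
      ∫ ω, B.indicator (fun ω => cost (s ω) x w) ω ∂P ≤ w.length * ((M + 1) * p / 2) := by
    intro w
    induction w with
    | nil =>
      intro x
      have h1 : (fun ω => B.indicator (fun ω => cost (s ω) x []) ω) = fun _ => (0 : ℝ) := by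
        funext ω
        by_cases hω : ω ∈ B
        · rw [Set.indicator_of_mem hω]
          rfl
        · rw [Set.indicator_of_notMem hω]
      rw [h1]
      refine ⟨integrable_zero _ _ _, ?_⟩
      simp
    | cons t w ih =>
      intro x
      obtain ⟨i1, i2⟩ := ih (x + sv t)
      obtain ⟨j1, j2⟩ := hedge (ed x t)
      have h1 : (fun ω => B.indicator (fun ω => cost (s ω) x (t :: w)) ω) = fun ω =>
          B.indicator (fun ω => s ω (ed x t)) ω +
            B.indicator (fun ω => cost (s ω) (x + sv t) w) ω := by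
        funext ω
        by_cases hω : ω ∈ B
        · rw [Set.indicator_of_mem hω, Set.indicator_of_mem hω, Set.indicator_of_mem hω]
          rfl
        · rw [Set.indicator_of_notMem hω, Set.indicator_of_notMem hω,
            Set.indicator_of_notMem hω, add_zero]
      rw [h1]
      refine ⟨j1.add i1, ?_⟩
      rw [integral_add j1 i1, List.length_cons]
      push_cast
      linarith
  obtain ⟨hc1, hc2⟩ := hcost w₀ 0
  have hTi : Integrable (fun ω => T (cf Y ω) 0 x) P := integrable_T hE 0 x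
  have hTsm : Measurable fun ω => T (s ω) 0 x :=
    (measurable_T_cfg 0 x).comp (measurable_pi_lambda _ fun e => hsm e)
  have hTsi : Integrable (fun ω => T (s ω) 0 x) P := by
    refine (hTi.add hc1).mono' hTsm.aestronglyMeasurable (Filter.Eventually.of_forall fun ω => ?_)
    rw [Real.norm_eq_abs, abs_of_nonneg (T_nonneg'' (hs0 ω) 0 x)]
    exact hpt ω
  have h1 := integral_mono hTsi (hTi.add hc1) hpt
  rw [integral_add' hTi hc1] at h1
  refine h1.trans (add_le_add le_rfl ?_)
  refine hc2.trans ?_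
  rw [hw₀l]
  refine mul_le_mul_of_nonneg_left ?_ (n1_nonneg x)
  have h2 := mul_nonneg (by linarith : 0 ≤ M + 1) hp.le
  linarith

/-- numbers -/
theorem nums (k : ℕ) {A c : ℝ} (hc : 0 < c) : ∃ K : ℝ, 0 < K ∧ ∀ b L : ℕ, L ^ 2 ≤ b →
    (b : ℝ) ^ k * Real.exp (A * L - c * b) ≤ K := by
  refine ⟨(k.factorial / (c / 2) ^ k) * Real.exp (A ^ 2 / (2 * c)), by positivity,
    fun b L hL => ?_⟩
  have hb0 : (0 : ℝ) ≤ b := Nat.cast_nonneg b
  have hL' : (L : ℝ) ^ 2 ≤ b := by exact_mod_cast hL
  have h1 := Real.pow_div_factorial_le_exp (c / 2 * b) (by positivity) k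
  rw [div_le_iff₀ (by positivity), mul_pow] at h1
  have h2 : (b : ℝ) ^ k ≤ (k.factorial / (c / 2) ^ k) * Real.exp (c / 2 * b) := by
    rw [div_mul_eq_mul_div, le_div_iff₀ (by positivity)]
    linarith
  have h3 : A * L - c * b ≤ A ^ 2 / (2 * c) - c / 2 * b := by
    have h4 : 0 ≤ (A - c * L) ^ 2 / (2 * c) := by positivity
    have h5 : (A - c * L) ^ 2 / (2 * c) = A ^ 2 / (2 * c) - A * L + c / 2 * L ^ 2 := by
      field_simp
      ring
    have h6 : c / 2 * (L : ℝ) ^ 2 ≤ c / 2 * b := mul_le_mul_of_nonneg_left hL' (by positivity)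
    linarith
  calc (b : ℝ) ^ k * Real.exp (A * L - c * b)
      ≤ ((k.factorial / (c / 2) ^ k) * Real.exp (c / 2 * b)) *
        Real.exp (A ^ 2 / (2 * c) - c / 2 * b) :=
        mul_le_mul h2 (Real.exp_le_exp.2 h3) (Real.exp_pos _).le (by positivity)
    _ = (k.factorial / (c / 2) ^ k) * Real.exp (A ^ 2 / (2 * c)) := by
        rw [mul_assoc, ← Real.exp_add]
        congr 2
        ring

/-- **LOW**: the mean of the passage time for the weights `s` (capped) is at most the mean for the
weights truncated at `b`, plus a constant, over exponential distances in `√b` -/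
theorem low_gen {Y : ℕ → Edge d → Ω → ℝ} {ν : ℕ → Measure ℝ} {δ : ℕ → ℝ} {a : ℝ}
    (hE : ∀ b : ℕ, 1 ≤ b → Env P (Y b) (ν b) (δ b) b) (hR : ∀ b, 1 ≤ b → Reg P (Y b) a)
    {s : Ω → Edge d → ℝ} (hs0 : ∀ ω e, 0 ≤ s ω e) (hsm : ∀ e, Measurable fun ω => s ω e)
    {M C c : ℝ} (hM0 : 0 ≤ M) (hMi : ∀ e, Integrable (fun ω => (s ω e) ^ 2) P)
    (hM : ∀ e, ∫ ω, (s ω e) ^ 2 ∂P ≤ M) (hC : 0 ≤ C) (hc : 0 < c)
    (hε : ∀ b : ℕ, 1 ≤ b → ∀ e, P.real {ω | Y b e ω < s ω e} ≤ C * Real.exp (-(c * b))) :
    ∃ K : ℝ, 0 < K ∧ ∀ L b : ℕ, 1 ≤ L → L ^ 2 ≤ b → ∀ x : V d, n1 x ≤ Real.exp L →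
      ∫ ω, T (s ω) 0 x ∂P ≤ mm P (Y b) x + K := by
  obtain ⟨K₁, hK₁, h₁⟩ := nums 0 (A := 2) one_pos
  obtain ⟨K₂, hK₂, h₂⟩ := nums d (A := d + 2) hc
  have ha0 := (hR 1 le_rfl).apos
  have ha1 := (hR 1 le_rfl).ale
  refine ⟨(M + 1) * √(K₁ + (5 / a) ^ d * d * C * K₂), by positivity,
    fun L b hL hLb x hx => ?_⟩
  have hb1 : 1 ≤ b := le_trans (Nat.one_le_pow _ _ hL) hLb
  have hb1' : (1 : ℝ) ≤ b := by exact_mod_cast hb1
  have hL0 : (0 : ℝ) ≤ L := Nat.cast_nonneg L
  have heL : (1 : ℝ) ≤ Real.exp L := Real.one_le_exp hL0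
  set r : ℝ := max (n1 x) 1 with hr
  have hr1 : 1 ≤ r := le_max_right _ _
  have hrx : n1 x ≤ r := le_max_left _ _
  have hrL : r ≤ Real.exp L := max_le hx heL
  set n : ℕ := ⌈b * r / a⌉₊ with hn
  have hn1 : b * r / a ≤ n := Nat.le_ceil _
  have hn2 : (n : ℝ) < b * r / a + 1 := Nat.ceil_lt_add_one (by positivity)
  have hn3 : (b : ℝ) * n1 x ≤ a * n := by
    rw [div_le_iff₀ ha0] at hn1
    have := mul_le_mul_of_nonneg_left hrx (by linarith : (0 : ℝ) ≤ b)
    linarith
  have hnb : (b : ℝ) ≤ n := by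
    refine le_trans ?_ hn1
    rw [le_div_iff₀ ha0]
    nlinarith
  set q : ℝ := Real.exp (-b) + (5 * b / a * Real.exp L) ^ d * d * (C * Real.exp (-(c * b)))
    with hq
  have hq0 : 0 < q := by positivity
  have hqq : Real.exp (-n) + ((2 * n + 1) ^ d * d) * (C * Real.exp (-(c * b))) ≤ √q ^ 2 := by
    rw [Real.sq_sqrt hq0.le, hq]
    refine add_le_add (Real.exp_le_exp.2 (by linarith)) ?_
    refine mul_le_mul_of_nonneg_right ?_ (by positivity)
    refine mul_le_mul_of_nonneg_right ?_ (Nat.cast_nonneg d)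
    refine pow_le_pow_left₀ (by positivity) ?_ d
    have h3 : b * r / a ≤ b / a * Real.exp L := by
      rw [mul_div_right_comm]
      exact mul_le_mul_of_nonneg_left hrL (by positivity)
    have h4 : 1 ≤ b / a * Real.exp L := by
      have h5 : 1 ≤ b / a := by
        rw [le_div_iff₀ ha0]
        linarith
      nlinarith
    have h6 : 5 * b / a * Real.exp L = 5 * (b / a * Real.exp L) := by ring
    rw [h6]
    linarith
  have h3 := mean_le (hE b hb1) (hR b hb1) hs0 hsm hM0 hMi hM (hε b hb1) x n hn3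
    (Real.sqrt_pos.2 hq0) hqq
  refine h3.trans (add_le_add le_rfl ?_)
  have h4 : Real.exp L * √q ≤ √(K₁ + (5 / a) ^ d * d * C * K₂) := by
    have h5 : Real.exp L * √q = √(Real.exp L ^ 2 * q) := by
      rw [Real.sqrt_mul (by positivity), Real.sqrt_sq (Real.exp_pos _).le]
    rw [h5]
    refine Real.sqrt_le_sqrt ?_
    have h6 := h₁ b L hLb
    have h7 := h₂ b L hLb
    have h8 : Real.exp L ^ 2 * q = (b : ℝ) ^ 0 * Real.exp (2 * L - 1 * b) +
        (5 / a) ^ d * d * C * ((b : ℝ) ^ d * Real.exp ((d + 2) * L - c * b)) := by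
      have e1 : Real.exp (2 * L - 1 * b) = Real.exp L ^ 2 * Real.exp (-b) := by
        rw [← Real.exp_nat_mul, ← Real.exp_add]
        congr 1
        push_cast
        ring
      have e2 : Real.exp ((d + 2) * L - c * b) =
          Real.exp L ^ 2 * Real.exp L ^ d * Real.exp (-(c * b)) := by
        rw [← Real.exp_nat_mul, ← Real.exp_nat_mul, ← Real.exp_add, ← Real.exp_add]
        congr 1
        push_cast
        ring
      rw [e1, e2, hq]
      ring
    rw [h8]
    refine add_le_add h6 (mul_le_mul_of_nonneg_left h7 (by positivity))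
  calc n1 x * ((M + 1) * √q) ≤ Real.exp L * ((M + 1) * √q) :=
        mul_le_mul_of_nonneg_right hx (by positivity)
    _ = (M + 1) * (Real.exp L * √q) := by ring
    _ ≤ _ := mul_le_mul_of_nonneg_left h4 (by linarith)

end Pool.Agent.Helper65.LW
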