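import Pool.Agent.Helper65.LW.LowS
import Pool.Agent.Helper79.PB.Asm

/-!
# PG+ (b), law half: the input `LowIn` of the assembly
-/

set_option autoImplicit false

namespace Pool.Agent.Helper65.LW

open MeasureTheory ProbabilityTheory Filter Pool.Agent.Helper79.GR Pool.Agent.Helper51.GP
open Pool.Agent.Helper2.PG Pool.Agent.Helper95.LW Pool.Agent.Helper34.GP
open Pool.Agent.Helper90.PG Pool.Agent.Helper79.PB

theorem lowIn {d : ℕ} (hd : 1 ≤ d) : LowIn d := by
  intro Ω mΩ P X ν κ hD
  set q : ℝ := (Dl d : ℝ) ^ 2 * ν.real (Set.Ioi κ) with hq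
  have hq0 : 0 ≤ q := by positivity
  have hq1 : q < 1 := hD.kp
  obtain ⟨a', ha'⟩ := reg_cl hD.prob hD.meas hD.indep hD.law hD.atom hD.nonneg hd (C := 0) le_rfl
    dl_pos dl_le_one
  obtain ⟨K, hK, h⟩ := low_cap hD.prob hD.meas hD.indep hD.law hD.nn
    (lt_of_lt_of_le one_pos hD.k1) (ρ := (q + 1) / 2) (by linarith) (by linarith)
    (by linarith) dl_pos dl_le_one (a := a') (fun b hb => by
      have h1 := ha' b hb
      have h2 : Xc dl 0 X b = Yb dl X b := by
        rw [Xc_eq]
        funext e ω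
        simp
      rwa [h2] at h1)
  refine ⟨2, by norm_num, K, fun L b hL hLb x hx => ?_⟩
  have h1 := h L b hL hLb x hx
  refine h1.trans (add_le_add le_rfl ?_)
  have hb : (1 : ℝ) ≤ b := by
    exact_mod_cast le_trans (Nat.one_le_pow _ _ hL) hLb
  nlinarith

end Pool.Agent.Helper65.LW
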