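import Pool.Agent.Helper65.LW.Low
import Pool.Agent.Helper95.LW.Cap
import Pool.Agent.Helper34.GP.Fam

/-!
# PG+ (b), law half, block LOW: the capped weights `sc κ c` and the truncated weights `Yb`
-/

set_option autoImplicit false

namespace Pool.Agent.Helper65.LW

open MeasureTheory ProbabilityTheory Filter Pool.Agent.Helper79.GR Pool.Agent.Helper51.GP
open Pool.Agent.Helper2.PG Pool.Agent.Helper95.LW Pool.Agent.Helper34.GP
open Pool.Agent.Helper90.PG

variable {Ω : Type*} [MeasurableSpace Ω] {P : Measure Ω} {d : ℕ} {X : Edge d → Ω → ℝ}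
  {ν : Measure ℝ} {κ ρ : ℝ}

/-- the tails of the size of a cluster -/
theorem clu_tail (hP : IsProbabilityMeasure P) (hm : ∀ e, Measurable (X e)) (hi : iIndepFun X P)
    (hl : ∀ e, P.map (X e) = ν) (hρ : (Dl d : ℝ) ^ 2 * ν.real (Set.Ioi κ) ≤ ρ) (e : Edge d)
    (n : ℕ) : P.real {ω | n ≤ (Clu (fun f => κ < cf X ω f) e).ncard} ≤ ρ ^ n := by
  have h1 : ∀ e, P.real (X e ⁻¹' Set.Ioi κ) ≤ ν.real (Set.Ioi κ) := by
    intro e
    rw [← hl e, map_measureReal_apply (hm e) measurableSet_Ioi]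
  have hν : ν.real (Set.Ioi κ) ≤ 1 := by
    rw [← hl e, map_measureReal_apply (hm e) measurableSet_Ioi]
    exact measureReal_le_one
  have h2 := peierls_ncard hi measurableSet_Ioi h1 measureReal_nonneg hν e n
  exact h2.trans (pow_le_pow_left₀ (by positivity) hρ n)

theorem measurable_sc (κ : ℝ) (e : Edge d) : Measurable fun c : Edge d → ℝ => sc κ c e := by
  classical
  unfold sc
  have h1 : Measurable fun c : Edge d → ℝ => (Clu (fun g => κ < c g) e).ncard :=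
    measurable_ncard (C := Set.Ioi κ) measurableSet_Ioi e
  have h2 : Measurable fun c : Edge d → ℝ => ((Clu (fun g => κ < c g) e).ncard : ℝ) :=
    (measurable_from_top (f := fun n : ℕ => (n : ℝ))).comp h1
  refine Measurable.ite ?_ ?_ (measurable_pi_apply e)
  · exact measurableSet_lt measurable_const (measurable_pi_apply e)
  · exact (measurable_pi_apply e).min (((h2.const_mul _).add_const _).const_mul _)

theorem measurable_sc' (hm : ∀ e, Measurable (X e)) (κ : ℝ) (e : Edge d) :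
    Measurable fun ω => sc κ (cf X ω) e :=
  (measurable_sc κ e).comp (measurable_pi_lambda _ fun e => hm e)

theorem sc_nn {c : Edge d → ℝ} (hκ : 0 ≤ κ) (hc : ∀ e, 0 ≤ c e) (e : Edge d) :
    0 ≤ sc κ c e := by
  by_cases h : κ < c e
  · rw [sc_closed h]
    exact le_min (hc e) (by positivity)
  · rw [sc_open h]
    exact hc e

theorem sc_le_ncard {c : Edge d → ℝ} (hκ : 0 ≤ κ) (e : Edge d) :
    sc κ c e ≤ κ * (Dl d * (Clu (fun f => κ < c f) e).ncard + 1) := by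
  by_cases h : κ < c e
  · rw [sc_closed h]
    exact min_le_right _ _
  · rw [sc_open h]
    have h1 : 0 ≤ κ * (Dl d * (Clu (fun f => κ < c f) e).ncard : ℝ) := by positivity
    linarith

/-- second moments of the capped weights -/
theorem sq_sc (hP : IsProbabilityMeasure P) (hm : ∀ e, Measurable (X e)) (hi : iIndepFun X P)
    (hl : ∀ e, P.map (X e) = ν) (h0 : ∀ e ω, 0 ≤ X e ω) (hκ : 0 ≤ κ) (hρ0 : 0 < ρ) (hρ1 : ρ < 1)
    (hρ : (Dl d : ℝ) ^ 2 * ν.real (Set.Ioi κ) ≤ ρ) :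
    ∃ M : ℝ, 0 ≤ M ∧ ∀ e, Integrable (fun ω => (sc κ (cf X ω) e) ^ 2) P ∧
      ∫ ω, (sc κ (cf X ω) e) ^ 2 ∂P ≤ M := by
  set g : ℕ → ℝ := fun n => (κ * (Dl d * n + 1)) ^ 2 with hg
  have hg0 : ∀ n, 0 ≤ g n := fun n => sq_nonneg _
  have hsum : Summable fun n : ℕ => g n * ρ ^ n := by
    have e1 : (fun n : ℕ => g n * ρ ^ n) = fun n : ℕ => (κ * Dl d) ^ 2 * ((n : ℝ) ^ 2 * ρ ^ n) +
        2 * κ ^ 2 * Dl d * ((n : ℝ) ^ 1 * ρ ^ n) + κ ^ 2 * ρ ^ n := by
      funext n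
      rw [hg]
      ring
    rw [e1]
    have hr : ‖ρ‖ < 1 := by
      rw [Real.norm_eq_abs, abs_of_pos hρ0]
      exact hρ1
    exact (((summable_pow_mul_geometric_of_norm_lt_one 2 hr).mul_left _).add
      ((summable_pow_mul_geometric_of_norm_lt_one 1 hr).mul_left _)).add
      ((summable_geometric_of_lt_one hρ0.le hρ1).mul_left _)
  set M : ℝ := ∑' n : ℕ, g n * ρ ^ n with hM
  have hM0 : 0 ≤ M := tsum_nonneg fun n => mul_nonneg (hg0 n) (pow_nonneg hρ0.le n)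
  refine ⟨M, hM0, fun e => ?_⟩
  set N : Ω → ℕ := fun ω => (Clu (fun f => κ < cf X ω f) e).ncard with hN
  have hNm : Measurable N :=
    (measurable_ncard (C := Set.Ioi κ) measurableSet_Ioi e).comp
      (measurable_pi_lambda _ fun e => hm e)
  have hlint : ∫⁻ ω, ENNReal.ofReal (g (N ω)) ∂P ≤ ENNReal.ofReal M := by
    have h1 : ∫⁻ ω, ENNReal.ofReal (g (N ω)) ∂P = ∫⁻ n, ENNReal.ofReal (g n) ∂(P.map N) := by
      rw [lintegral_map (measurable_of_countable _) hNm]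
    rw [h1, lintegral_countable', hM,
      ENNReal.ofReal_tsum_of_nonneg (fun n => mul_nonneg (hg0 n) (pow_nonneg hρ0.le n)) hsum]
    refine ENNReal.tsum_le_tsum fun n => ?_
    rw [ENNReal.ofReal_mul (hg0 n)]
    refine mul_le_mul_right ?_ _
    rw [Measure.map_apply hNm (measurableSet_singleton n)]
    refine (measure_mono (fun ω hω => ?_)).trans (ENNReal.le_ofReal_iff_toReal_le
      (measure_ne_top _ _) (pow_nonneg hρ0.le n) |>.2 (clu_tail hP hm hi hl hρ e n))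
    have h2 : N ω = n := hω
    exact h2.ge
  have hle : ∀ ω, (sc κ (cf X ω) e) ^ 2 ≤ g (N ω) := fun ω =>
    pow_le_pow_left₀ (sc_nn hκ (fun e => h0 e ω) e) (sc_le_ncard hκ e) 2
  have hsm : Measurable fun ω => (sc κ (cf X ω) e) ^ 2 := (measurable_sc' hm κ e).pow_const 2
  have hlint2 : ∫⁻ ω, ENNReal.ofReal ((sc κ (cf X ω) e) ^ 2) ∂P ≤ ENNReal.ofReal M :=
    (lintegral_mono fun ω => ENNReal.ofReal_le_ofReal (hle ω)).trans hlint
  constructor
  · refine ⟨hsm.aestronglyMeasurable, ?_⟩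
    rw [hasFiniteIntegral_iff_ofReal (Eventually.of_forall fun ω => sq_nonneg _)]
    exact hlint2.trans_lt ENNReal.ofReal_lt_top
  · rw [integral_eq_lintegral_of_nonneg_ae (Eventually.of_forall fun ω => sq_nonneg _)
      hsm.aestronglyMeasurable]
    exact ENNReal.toReal_le_of_le_ofReal hM0 hlint2

/-- the capped weight is rarely above the truncated weight -/
theorem tail_cap (hP : IsProbabilityMeasure P) (hm : ∀ e, Measurable (X e)) (hi : iIndepFun X P)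
    (hl : ∀ e, P.map (X e) = ν) (hκ : 0 < κ) (hρ0 : 0 < ρ) (hρ1 : ρ < 1)
    (hρ : (Dl d : ℝ) ^ 2 * ν.real (Set.Ioi κ) ≤ ρ) (δ : ℕ → ℝ) :
    ∃ C c : ℝ, 0 ≤ C ∧ 0 < c ∧ ∀ (b : ℕ) (e : Edge d),
      P.real {ω | Yb δ X b e ω < sc κ (cf X ω) e} ≤ C * Real.exp (-(c * b)) := by
  have hlog : Real.log ρ < 0 := Real.log_neg hρ0 hρ1
  by_cases hd : d = 0
  · refine ⟨0, 1, le_rfl, one_pos, fun b e => ?_⟩
    subst hd
    exact (Fin.elim0 (dr e))
  have hD : (1 : ℝ) ≤ Dl d := by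
    have e : Edge d := ed 0 (⟨0, Nat.pos_of_ne_zero hd⟩, true)
    exact_mod_cast Dl_pos e
  set c : ℝ := -Real.log ρ / (κ * Dl d) with hc
  have hc0 : 0 < c := div_pos (by linarith) (by positivity)
  refine ⟨Real.exp (c * κ), c, (Real.exp_pos _).le, hc0, fun b e => ?_⟩
  rw [← Real.exp_add]
  by_cases hb : (b : ℝ) < κ
  · refine measureReal_le_one.trans (Real.one_le_exp ?_)
    have := mul_le_mul_of_nonneg_left hb.le hc0.le
    linarith
  · rw [not_lt] at hb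
    set n : ℕ := ⌈((b : ℝ) / κ - 1) / Dl d⌉₊ with hn
    have hsub : {ω | Yb δ X b e ω < sc κ (cf X ω) e} ⊆
        {ω | n ≤ (Clu (fun f => κ < cf X ω f) e).ncard} := by
      intro ω hω
      have h1 : max (δ b) (min (X e ω) b) < sc κ (cf X ω) e := hω
      have h2 : min (X e ω) b < sc κ (cf X ω) e := lt_of_le_of_lt (le_max_right _ _) h1
      have h3 : sc κ (cf X ω) e ≤ X e ω := sc_le e
      have h4 : (b : ℝ) < sc κ (cf X ω) e := by
        rcases min_choice (X e ω) (b : ℝ) with h5 | h5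
        · rw [h5] at h2
          exact absurd (h2.trans_le h3) (lt_irrefl _)
        · rwa [h5] at h2
      have h5 := h4.trans_le (sc_le_ncard hκ.le e)
      show n ≤ _
      rw [hn]
      refine Nat.ceil_le.2 ?_
      rw [div_le_iff₀ (by positivity)]
      have h6 : (b : ℝ) / κ < Dl d * (Clu (fun f => κ < cf X ω f) e).ncard + 1 := by
        rw [div_lt_iff₀ hκ, mul_comm]
        exact h5
      linarith
    refine (measureReal_mono hsub (measure_ne_top _ _)).trans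
      ((clu_tail hP hm hi hl hρ e n).trans ?_)
    have h1 : ρ ^ n = Real.exp (n * Real.log ρ) := by
      rw [Real.exp_nat_mul, Real.exp_log hρ0]
    rw [h1]
    refine Real.exp_le_exp.2 ?_
    have h2 : ((b : ℝ) / κ - 1) / Dl d ≤ n := Nat.le_ceil _
    have h3 := mul_le_mul_of_nonpos_right h2 hlog.le
    refine h3.trans (le_of_eq ?_)
    rw [hc]
    field_simp
    ring

/-- **LOW** for the capped weights -/
theorem low_cap (hP : IsProbabilityMeasure P) (hm : ∀ e, Measurable (X e)) (hi : iIndepFun X P)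
    (hl : ∀ e, P.map (X e) = ν) (h0 : ∀ e ω, 0 ≤ X e ω) (hκ : 0 < κ) (hρ0 : 0 < ρ) (hρ1 : ρ < 1)
    (hρ : (Dl d : ℝ) ^ 2 * ν.real (Set.Ioi κ) ≤ ρ) {δ : ℕ → ℝ} (hδ : ∀ b, 0 < δ b)
    (hδ1 : ∀ b, δ b ≤ 1) {a : ℝ} (hR : ∀ b, 1 ≤ b → Reg P (Yb δ X b) a) :
    ∃ K : ℝ, 0 < K ∧ ∀ L b : ℕ, 1 ≤ L → L ^ 2 ≤ b → ∀ x : V d, n1 x ≤ Real.exp L →
      ∫ ω, T (sc κ (cf X ω)) 0 x ∂P ≤ mm P (Yb δ X b) x + K := by
  obtain ⟨M, hM0, hM⟩ := sq_sc hP hm hi hl h0 hκ.le hρ0 hρ1 hρ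
  obtain ⟨C, c, hC, hc, htail⟩ := tail_cap hP hm hi hl hκ hρ0 hρ1 hρ δ
  exact low_gen (Y := Yb δ X) (fun b hb => env_Yb hP hm hi hl hδ hδ1 b hb) hR
    (fun ω e => sc_nn hκ.le (fun e => h0 e ω) e) (fun e => measurable_sc' hm κ e) hM0
    (fun e => (hM e).1) (fun e => (hM e).2) hC hc fun b _ e => htail b e

/-- the field `low` of `fam_of` -/
theorem low_u (hP : IsProbabilityMeasure P) (hm : ∀ e, Measurable (X e)) (hi : iIndepFun X P)
    (hl : ∀ e, P.map (X e) = ν) (hat : ∀ x, ν {x} = 0) (h0' : ν (Set.Iio 0) = 0)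
    (h0 : ∀ e ω, 0 ≤ X e ω) (hd : 1 ≤ d) (hκ : 0 < κ) (hρ0 : 0 < ρ) (hρ1 : ρ < 1)
    (hρ : (Dl d : ℝ) ^ 2 * ν.real (Set.Ioi κ) ≤ ρ) {a b : ℝ}
    (hS : SubM a b fun v : V d => ∫ ω, T (sc κ (cf X ω)) 0 v ∂P) :
    ∃ K : ℝ, ∀ L b : ℕ, 1 ≤ L → L ^ 2 ≤ b → ∀ x : V d, n1 x ≤ Real.exp L →
      tc (fun v : V d => ∫ ω, T (sc κ (cf X ω)) 0 v ∂P) (rv x) ≤
        mm P (Yb dl X b) x + K * b := by
  obtain ⟨a', ha'⟩ := reg_cl hP hm hi hl hat h0' hd (C := 0) le_rfl dl_pos dl_le_one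
  obtain ⟨K, hK, h⟩ := low_cap hP hm hi hl h0 hκ hρ0 hρ1 hρ dl_pos dl_le_one
    (a := a') (fun b hb => by
      have h1 := ha' b hb
      have h2 : Xc dl 0 X b = Yb dl X b := by
        rw [Xc_eq]
        funext e ω
        simp
      rwa [h2] at h1)
  refine ⟨K, fun L b hL hLb x hx => ?_⟩
  have h1 := h L b hL hLb x hx
  have h2 := mul_tc_le hS x 1
  rw [Nat.cast_one, one_mul, one_smul] at h2
  refine h2.trans (h1.trans (add_le_add le_rfl ?_))
  have hb : (1 : ℝ) ≤ b := by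
    exact_mod_cast le_trans (Nat.one_le_pow _ _ hL) hLb
  nlinarith

end Pool.Agent.Helper65.LW
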