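import Pool.Agent.Helper79.GQ.LH
import Pool.Agent.Helper79.PB.Defs

/-!
# PG+ (b), law half: the time constant of a stationary process is a norm
-/

set_option autoImplicit false

namespace Pool.Agent.Helper65.LW

open MeasureTheory ProbabilityTheory Filter Pool.Agent.Helper79.GR Pool.Agent.Helper79.GQ
open Pool.Agent.Helper79.PB

variable {Ω : Type*} [MeasurableSpace Ω] {P : Measure Ω} {d : ℕ} {a b : ℝ}

theorem n1_fl_neg (n : ℕ) (x : F d) : n1 (fl n (-x) - (-fl n x)) ≤ d := by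
  have h1 : ∀ i : Fin d, |(((fl n (-x) - (-fl n x)) i : ℤ) : ℝ)| ≤ 1 := by
    intro i
    have e : (((fl n (-x) - (-fl n x)) i : ℤ) : ℝ) = (⌊-((n : ℝ) * x i)⌋ : ℝ) + ⌊(n : ℝ) * x i⌋ := by
      simp [fl]
    rw [e, abs_le]
    have h2 := Int.floor_le (-((n : ℝ) * x i))
    have h3 := Int.floor_le ((n : ℝ) * x i)
    have h4 : ((-1 : ℤ) : ℝ) ≤ ((⌊-((n : ℝ) * x i)⌋ + ⌊(n : ℝ) * x i⌋ : ℤ) : ℝ) := by
      have h5 := Int.lt_floor_add_one (-((n : ℝ) * x i))
      have h6 := Int.lt_floor_add_one ((n : ℝ) * x i)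
      have h7 : ((-2 : ℤ) : ℝ) < ((⌊-((n : ℝ) * x i)⌋ + ⌊(n : ℝ) * x i⌋ : ℤ) : ℝ) := by
        push_cast
        linarith
      have h8 := Int.cast_lt.1 h7
      exact Int.cast_le.2 (by omega)
    push_cast at h4
    constructor
    · linarith
    · linarith
  unfold n1
  calc ∑ i, |(((fl n (-x) - (-fl n x)) i : ℤ) : ℝ)| ≤ ∑ _i : Fin d, (1 : ℝ) :=
        Finset.sum_le_sum fun i _ => h1 i
    _ = d := by simp

/-- the time constant of an even function is even -/
theorem tc_neg_of {m : V d → ℝ} (hs : SubM a b m) (hm : ∀ x, m (-x) = m x) (x : F d) :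
    tc m (-x) = tc m x := by
  have h1 := ((tendsto_tc hs (-x)).sub (tendsto_tc hs x)).abs
  have h2 : Filter.Tendsto (fun n : ℕ => |b| * d / (n : ℝ)) Filter.atTop (nhds 0) :=
    tendsto_const_div_atTop_nhds_zero_nat (|b| * d)
  have h3 : |tc m (-x) - tc m x| ≤ 0 := by
    refine le_of_tendsto_of_tendsto h1 h2 (Filter.Eventually.of_forall fun n => ?_)
    show |m (fl n (-x)) / n - m (fl n x) / n| ≤ |b| * d / n
    rw [← sub_div, abs_div, Nat.abs_cast]
    refine div_le_div_of_nonneg_right ?_ (Nat.cast_nonneg n)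
    rw [← hm (fl n x)]
    refine (hs.lip _ _).trans ?_
    calc b * n1 (fl n (-x) - -fl n x) ≤ |b| * n1 (fl n (-x) - -fl n x) :=
          mul_le_mul_of_nonneg_right (le_abs_self b) (n1_nonneg _)
      _ ≤ |b| * d := mul_le_mul_of_nonneg_left (n1_fl_neg n x) (abs_nonneg b)
  exact sub_eq_zero.1 (abs_eq_zero.1 (le_antisymm h3 (abs_nonneg _)))

/-- the time constant of an even subadditive function is a norm -/
theorem nrm_of_subM {m : V d → ℝ} (hs : SubM a b m) (hm : ∀ x, m (-x) = m x) :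
    Nrm a b (tc m) :=
  ⟨hs.apos, tc_add_le hs, fun t ht x => tc_smul hs t ht x, tc_neg_of hs hm, le_tc hs, tc_le hs⟩

/-- the time constant of a stationary process is a norm -/
theorem nrm_of_proc {τ : Ω → V d → V d → ℝ} (h : Proc P τ a b) : Nrm a b (tc (mn P τ)) :=
  nrm_of_subM h.sub h.mn_neg

end Pool.Agent.Helper65.LW
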